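import Pool.Agent.H80.EQ.PRCa

/-!
Board eqd_modules, row PRC: escape.
-/

namespace Pool.Agent.H80.EQ

open scoped BigOperators ComplexConjugate ContDiff ComplexOrder
open MeasureTheory
open Pool.Agent.H92.EQ

theorem prc_tail {d : ℕ} (hd : 2 ≤ d) {ε : ℝ} (hε : 0 < ε) :
    ∃ j0 : ℕ, 1 ≤ j0 ∧ ∀ n : ℕ,
      ∑ j ∈ Finset.range n, (if j0 ≤ j then (j : ℝ) / (d : ℝ) ^ j else 0) ≤ ε := by
  have hd' : (1 : ℝ) < d := by exact_mod_cast (by omega : 1 < d)
  have hs : Summable fun j : ℕ => (j : ℝ) / (d : ℝ) ^ j := by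
    have h := summable_pow_mul_geometric_of_norm_lt_one 1 (r := 1 / (d : ℝ)) (by
      rw [Real.norm_eq_abs, abs_of_pos (by positivity), div_lt_one (by linarith)]
      exact hd')
    refine h.congr fun j => ?_
    rw [pow_one, one_div_pow, mul_one_div]
  obtain ⟨s, hs'⟩ := summable_iff_vanishing_norm.mp hs ε hε
  refine ⟨s.sup id + 1, by omega, fun n => ?_⟩
  rw [← Finset.sum_filter]
  have h := hs' ((Finset.range n).filter (fun j => s.sup id + 1 ≤ j)) (by
    rw [Finset.disjoint_left]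
    intro j hj hjs
    have h1 := (Finset.mem_filter.mp hj).2
    have h2 : id j ≤ s.sup id := Finset.le_sup (f := id) hjs
    have h3 : j ≤ s.sup id := h2
    omega)
  exact (le_abs_self _).trans h.le

theorem prc_EE_sub (hP1 : T_P1) {k d L : ℕ} {F : Fin (k + 1) → MvPolynomial (Fin (k + 1)) ℂ}
    {σ : Form (Fin (k + 1)) k} (hS : ProjForm (Sn F d L σ)) (s : Finset ℕ)
    (f : ℕ → (Fin (k + 1) → ℂ) → ℝ) (hf : ∀ j ∈ s, ContinuousOn (f j) {0}ᶜ) :
    EE F d L σ (fun x => 1 - ∑ j ∈ s, f j x) =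
      EE F d L σ (fun _ => 1) - ∑ j ∈ s, EE F d L σ (f j) := by
  have hI := (hP1 (k + 1) k 0 (Sn F d L σ) (fun _ => ell) (fun _ => 1) (by omega) hS
    (fun j => j.elim0)).2
  unfold EE pair Iint
  rw [← integral_finsetSum _ fun j hj => hI (f j) (hf j hj),
    ← integral_sub (hI (fun _ => 1) continuousOn_const)
      (integrable_finsetSum _ fun j hj => hI (f j) (hf j hj))]
  refine integral_congr_ae (Filter.Eventually.of_forall fun z => ?_)
  simp only
  rw [sub_mul, Finset.sum_mul]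

/-- The walk which starts with law `σ'` makes no visit with probability `3/4`. -/
theorem prc_core (hPMK : T_PMK) (hPSA : T_PSA) (hPVI : T_PVI) (hD12 : T_D12) (hP1 : T_P1)
    (hL1 : T_L1) {k d M : ℕ} {F : Fin (k + 1) → MvPolynomial (Fin (k + 1)) ℂ}
    {P : MvPolynomial (Fin (k + 1)) ℂ} {CF : ℝ} (hd : 2 ≤ d) (hF : IsH d F)
    (hP : P.IsHomogeneous M) (hCF : 0 < CF) {r : ℝ} (hr : 0 < r) (hr2 : r ≤ 1 / 2)
    (hlog : 16 * CF ≤ Real.log (1 / r)) {L' : ℕ}
    (hL : (L' : ℝ) ≤ 1 / (16 * CF) * Real.log (1 / r)) {σ' : Form (Fin (k + 1)) k}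
    (hσ' : ProjForm σ') (hm : 0 ≤ mass 0 σ') {j0 : ℕ} (hj1 : 1 ≤ j0)
    (hj0 : ∀ n : ℕ,
      ∑ j ∈ Finset.range n, (if j0 ≤ j then (j : ℝ) / (d : ℝ) ^ j else 0) ≤ 1 / (8 * CF))
    (h0 : ∀ j < j0, EE F d j σ' (fun x => noV F (vis P M r) j 0 j x * vis P M r x) = 0)
    (hFV : ∀ (r : ℝ) (j : ℕ) (σ : Form (Fin (k + 1)) k), 0 < r → r ≤ 1 / 2 → 1 ≤ j →
      ProjForm σ →
      EE F d j σ (fun x => noV F (vis P M r) j 0 j x * vis P M r x) ≤
        CF * (j / (d : ℝ) ^ j + 1 / Real.log (1 / r)) * mass 0 σ) :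
    3 / 4 * mass 0 σ' ≤ EE F d L' σ' (noV F (vis P M r) L' 0 (L' + 1)) := by
  have hd1 : 1 ≤ d := by omega
  obtain ⟨hv0, hv1, -, -⟩ := hPVI (k + 1) M P r hP hr
  set v := vis P M r with hv
  have hlogp : 0 < Real.log (1 / r) := lt_of_lt_of_le (by positivity) hlog
  have hSn : ProjForm (Sn F d L' σ') := (hD12 (k + 1) d F hd1 hF 0 L').2.2.2.2 k σ' hσ'
  have hφ : ∀ j, Hom0 (fun y => noV F v j 0 j y * v y) := fun j =>
    prc_hom_mul (prc_hom_noV hL1 hD12 hd1 hF hv0 j 0 j) hv0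
  have hφc : ∀ j, Hom0 (fun x => (fun y => noV F v j 0 j y * v y) (ev (iter F (L' - j)) x)) :=
    fun j => prc_hom_comp hL1 (hD12 (k + 1) d F hd1 hF 0 (L' - j)).1 (hφ j)
  have e1 : (noV F v L' 0 (L' + 1)) = fun x => 1 - ∑ j ∈ Finset.range (L' + 1),
      (fun y => noV F v j 0 j y * v y) (ev (iter F (L' - j)) x) := by
    funext x
    have h1 := (hPSA (fun i => v (ev (iter F (L' - i)) x)) 0 0 (L' + 1) (Nat.zero_le _)).1
    have h2 : noV F v L' 0 (L' + 1) x =
        ∏ i ∈ Finset.Ico 0 (L' + 1), (1 - (fun i => v (ev (iter F (L' - i)) x)) i) := rfl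
    rw [← h2] at h1
    have h3 : ∑ j ∈ Finset.Ico 0 (L' + 1), (∏ i ∈ Finset.Ico 0 j,
        (1 - (fun i => v (ev (iter F (L' - i)) x)) i)) * (fun i => v (ev (iter F (L' - i)) x)) j =
        ∑ j ∈ Finset.range (L' + 1),
          (fun y => noV F v j 0 j y * v y) (ev (iter F (L' - j)) x) := by
      rw [Finset.range_eq_Ico]
      refine Finset.sum_congr rfl fun j hj => ?_
      have hj' : j ≤ L' := Nat.lt_succ_iff.mp (Finset.mem_Ico.mp hj).2
      have h4 := prc_noV_comp hD12 hd1 hF v hj' x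
      simp only
      rw [← h4]
      rfl
    rw [h3] at h1
    linarith
  rw [e1, prc_EE_sub hP1 hSn (Finset.range (L' + 1))
    (fun j x => (fun y => noV F v j 0 j y * v y) (ev (iter F (L' - j)) x))
    (fun j _ => (hφc j).smooth.continuousOn)]
  have pm := hPMK k d L' 0 F σ' hd hF hσ'
  rw [pm.2.2.2.2.2]
  have e2 : ∀ j ∈ Finset.range (L' + 1), EE F d L' σ'
      (fun x => (fun y => noV F v j 0 j y * v y) (ev (iter F (L' - j)) x)) ≤
      CF * (if j0 ≤ j then (j : ℝ) / (d : ℝ) ^ j else 0) * mass 0 σ' +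
        CF / Real.log (1 / r) * mass 0 σ' := by
    intro j hj
    have hj' : j ≤ L' := Nat.lt_succ_iff.mp (Finset.mem_range.mp hj)
    have h1 := (hPMK k d j (L' - j) F σ' hd hF hσ').2.1 (fun y => noV F v j 0 j y * v y) (hφ j)
    have h2 : j + (L' - j) = L' := by omega
    rw [h2] at h1
    rw [h1]
    have h3 : 0 ≤ CF / Real.log (1 / r) * mass 0 σ' := by positivity
    by_cases hc : j0 ≤ j
    · rw [if_pos hc]
      have h4 := hFV r j σ' hr hr2 (hj1.trans hc) hσ'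
      refine h4.trans (le_of_eq ?_)
      ring
    · rw [if_neg hc, h0 j (by omega), mul_zero, zero_mul, zero_add]
      exact h3
  have e3 := Finset.sum_le_sum e2
  rw [Finset.sum_add_distrib, ← Finset.sum_mul, ← Finset.mul_sum, Finset.sum_const,
    Finset.card_range, nsmul_eq_mul] at e3
  have e4 : CF * (∑ j ∈ Finset.range (L' + 1),
      (if j0 ≤ j then (j : ℝ) / (d : ℝ) ^ j else 0)) * mass 0 σ' ≤ 1 / 8 * mass 0 σ' := by
    refine mul_le_mul_of_nonneg_right ?_ hm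
    calc CF * (∑ j ∈ Finset.range (L' + 1),
        (if j0 ≤ j then (j : ℝ) / (d : ℝ) ^ j else 0)) ≤ CF * (1 / (8 * CF)) :=
          mul_le_mul_of_nonneg_left (hj0 _) hCF.le
      _ = 1 / 8 := by field_simp
  have e5 : ((L' + 1 : ℕ) : ℝ) * (CF / Real.log (1 / r) * mass 0 σ') ≤ 1 / 8 * mass 0 σ' := by
    rw [← mul_assoc]
    refine mul_le_mul_of_nonneg_right ?_ hm
    push_cast
    have h1 : (L' : ℝ) * CF ≤ 1 / 16 * Real.log (1 / r) := by
      calc (L' : ℝ) * CF ≤ (1 / (16 * CF) * Real.log (1 / r)) * CF :=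
            mul_le_mul_of_nonneg_right hL hCF.le
        _ = 1 / 16 * Real.log (1 / r) := by field_simp
    rw [mul_div_assoc', div_le_iff₀ hlogp]
    linarith
  linarith

/-- Row PRC. -/
theorem pf_PRC (hPNM : T_PNM) (hPDS : T_PDS) (hPMK : T_PMK) (hPDE : T_PDE) (hPVI : T_PVI)
    (hPLC : T_PLC) (hPSA : T_PSA) (hD12 : T_D12) (hP1 : T_P1) (hP3 : T_P3) (hP5 : T_P5)
    (hL1 : T_L1) (hL6 : T_L6) : T_PRC := by
  intro k d M F P CF hd hF hN hCF hFV
  have hd1 : 1 ≤ d := by omega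
  have hdR : (1 : ℝ) ≤ d := by exact_mod_cast hd1
  have hk0 : 0 < k + 1 := by omega
  have hIt : ∀ l, IsH (d ^ l) (iter F l) := fun l => (hD12 (k + 1) d F hd1 hF 0 l).1
  obtain ⟨j0, hj1, hj0⟩ := prc_tail hd (ε := 1 / (8 * CF)) (by positivity)
  choose hp mp hp0 hph hpd using fun l : ℕ => hPNM (k + 1) (d ^ l) M (iter F l) P hk0
    (Nat.one_le_pow _ _ (by omega)) (hIt l) hN.hom hN.ne
  obtain ⟨G, hGdef⟩ : ∃ G, G = P * ∏ l ∈ Finset.range j0, hp l := ⟨_, rfl⟩
  obtain ⟨m, hmdef⟩ : ∃ m, m = M + ∑ l ∈ Finset.range j0, mp l := ⟨_, rfl⟩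
  have hG0 : G ≠ 0 := by
    rw [hGdef]
    exact mul_ne_zero hN.ne (Finset.prod_ne_zero_iff.mpr fun l _ => hp0 l)
  have hGh : G.IsHomogeneous m := by
    rw [hGdef, hmdef]
    exact hN.hom.mul (MvPolynomial.IsHomogeneous.prod _ _ _ fun l _ => hph l)
  have hm1 : 1 ≤ m := by
    have := hN.pos
    omega
  have hGd : ∀ l < j0, P ∣ MvPolynomial.bind₁ (iter F l) G := by
    intro l hl
    refine (hpd l).trans (map_dvd (MvPolynomial.bind₁ (iter F l)) ?_)
    rw [hGdef]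
    exact Dvd.dvd.mul_left (Finset.dvd_prod_of_mem hp (Finset.mem_range.mpr hl)) P
  have hrat : ∀ l : ℕ, ∃ c1 : ℝ, 0 < c1 ∧ (l < j0 → ∀ x : Fin (k + 1) → ℂ, x ≠ 0 →
      nv G m (ev (iter F l) x) ≤ c1 * nv P M x) := by
    intro l
    by_cases hl : l < j0
    · obtain ⟨c1, h1, h2⟩ := prc_ratio hL6 (hIt l) hGh hN.hom (hGd l hl)
      exact ⟨c1, h1, fun _ => h2⟩
    · exact ⟨1, one_pos, fun h => absurd h hl⟩
  choose c1 hc1 hc1' using hrat
  have hnv0 : ∀ x : Fin (k + 1) → ℂ, 0 ≤ nv P M x := fun x =>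
    div_nonneg (norm_nonneg _) (pow_nonneg (Real.sqrt_nonneg _) _)
  obtain ⟨C1, hC1def⟩ : ∃ C1 : ℝ, C1 = 1 + ∑ l ∈ Finset.range j0, c1 l := ⟨_, rfl⟩
  have hC1 : 0 < C1 := by
    rw [hC1def]
    have := Finset.sum_nonneg fun l (_ : l ∈ Finset.range j0) => (hc1 l).le
    linarith
  have hC1' : ∀ l < j0, ∀ x : Fin (k + 1) → ℂ, x ≠ 0 →
      nv G m (ev (iter F l) x) ≤ C1 * nv P M x := by
    intro l hl x hx
    refine (hc1' l hl x hx).trans (mul_le_mul_of_nonneg_right ?_ (hnv0 x))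
    have := Finset.single_le_sum (f := c1) (fun l _ => (hc1 l).le) (Finset.mem_range.mpr hl)
    rw [hC1def]
    linarith
  obtain ⟨t, s, A, h, e, C, hInv, hdes⟩ := hPDS (k + 1) d m F G hk0 hd hF hm1 hGh hG0
  have hC0 : 0 < C := lt_of_lt_of_le one_pos hInv.one
  have hD0 : (0 : ℝ) < ((t : ℝ) + 1) * (d : ℝ) ^ ((k + 1) * t) := by positivity
  have hD1 : (1 : ℝ) ≤ ((t : ℝ) + 1) * (d : ℝ) ^ ((k + 1) * t) := by
    have h1 : (1 : ℝ) ≤ (d : ℝ) ^ ((k + 1) * t) := one_le_pow₀ hdR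
    have h2 : (0 : ℝ) ≤ t := Nat.cast_nonneg t
    nlinarith
  refine ⟨t, s, A, h, e, C, 3 / 4 / (((t : ℝ) + 1) * (d : ℝ) ^ ((k + 1) * t)),
    1 / (5 * C * C1), min (1 / 2) (Real.exp (-(16 * CF))), 1 / (16 * CF), hInv, by positivity,
    ?_, by positivity, ?_, min_le_left _ _, by positivity, ?_⟩
  · rw [div_lt_one hD0]
    linarith
  · exact lt_min (by norm_num) (Real.exp_pos _)
  intro r L σ hr hr0 htL hL hσ hK
  have hr2 : r ≤ 1 / 2 := hr0.trans (min_le_left _ _)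
  have hlog : 16 * CF ≤ Real.log (1 / r) := by
    have h1 : r ≤ Real.exp (-(16 * CF)) := hr0.trans (min_le_right _ _)
    have h2 := Real.log_le_log hr h1
    rw [Real.log_exp] at h2
    rw [one_div, Real.log_inv]
    linarith
  obtain ⟨hv0, hv1, -, hv3⟩ := hPVI (k + 1) M P r hN.hom hr
  have hs1 : 0 < 2 * C1 * r := by positivity
  obtain ⟨hw0, hw1, hw2, hw3⟩ := hPVI (k + 1) m G (2 * C1 * r) hGh hs1
  obtain ⟨g, hg⟩ : ∃ g : (Fin (k + 1) → ℂ) → ℝ, g = fun z => 1 - vis G m (2 * C1 * r) z :=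
    ⟨_, rfl⟩
  have hgh : Hom0 g := by
    rw [hg]
    exact prc_hom_one_sub hw0
  have hg01 : ∀ z, 0 ≤ g z ∧ g z ≤ 1 := by
    intro z
    rw [hg]
    constructor
    · linarith [(hw1 z).2]
    · linarith [(hw1 z).1]
  have hg1 : ∀ z, 2 * (2 * C1 * r) < nv G m z → 1 ≤ g z := by
    intro z hz
    have h1 : vis G m (2 * C1 * r) z = 0 := by
      by_contra hne
      linarith [hw3 z hne]
    rw [hg]
    simp only
    rw [h1, sub_zero]
  have hg0 : ∀ z, g z ≠ 0 → 2 * C1 * r < nv G m z := by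
    intro z hz
    by_contra hle
    push Not at hle
    apply hz
    rw [hg]
    simp only
    rw [hw2 z hle, sub_self]
  have hm0 : 0 ≤ mass 0 σ := (hP5 (k + 1) k 0 d σ (by omega) hσ).2.2
  have hLH : ∀ j : Fin 0, LH ((fun _ : Fin 0 => (1 : ℝ)) j)
      ((fun _ : Fin 0 => (ell : (Fin (k + 1) → ℂ) → ℝ)) j) := fun j => j.elim0
  have hPot : ∀ j : Fin 0, Pot ((fun _ : Fin 0 => (ell : (Fin (k + 1) → ℂ) → ℝ)) j) :=
    fun j => j.elim0
  have hQ := (hP3 (k + 1) k 0 σ (fun _ => ell) (by omega) hσ hPot).1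
  -- Claim 1
  have claim1 : ∃ l ≤ t, mass 0 σ / (((t : ℝ) + 1) * (d : ℝ) ^ ((k + 1) * t)) ≤
      EE F d l σ g := by
    by_contra hno
    push Not at hno
    have hint : ∀ l, IntegrableOn (fun z =>
        Set.indicator {z | ∃ x, ev (iter F l) x = z ∧ 1 ≤ g x} (fun _ => (1 : ℝ)) z *
          Q σ (fun _ : Fin 0 => ell) z) {z : Fin (k + 1) → ℂ | 0 ≤ ell z ∧ ell z < 1} := by
      intro l
      refine (hP1 (k + 1) k 0 σ (fun _ => ell) (fun _ => 1) (by omega) hσ hLH).1 _ 1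
        (measurable_const.indicator (prc_meas _ _ hgh.smooth.continuousOn)) ?_
      intro z _
      by_cases hz : z ∈ {z | ∃ x, ev (iter F l) x = z ∧ 1 ≤ g x}
      · rw [Set.indicator_of_mem hz, abs_one]
      · rw [Set.indicator_of_notMem hz, abs_zero]
        exact zero_le_one
    have hint1 : IntegrableOn (fun z => (1 : ℝ) * Q σ (fun _ : Fin 0 => ell) z)
        {z : Fin (k + 1) → ℂ | 0 ≤ ell z ∧ ell z < 1} :=
      (hP1 (k + 1) k 0 σ (fun _ => ell) (fun _ => 1) (by omega) hσ hLH).1 (fun _ => 1) 1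
        measurable_const (fun z _ => by rw [abs_one])
    have cov : mass 0 σ ≤ ∑ l ∈ Finset.range (t + 1),
        pair (Set.indicator {z | ∃ x, ev (iter F l) x = z ∧ 1 ≤ g x} (fun _ => 1)) σ
          (fun _ : Fin 0 => ell) := by
      unfold mass pair Iint
      rw [← integral_finsetSum _ fun l _ => hint l]
      refine integral_mono_ae hint1 (integrable_finsetSum _ fun l _ => hint l) ?_
      filter_upwards [ki_ne hk0 {z : Fin (k + 1) → ℂ | 0 ≤ ell z ∧ ell z < 1}] with z hz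
      have hterm : ∀ l ∈ Finset.range (t + 1), 0 ≤
          Set.indicator {z | ∃ x, ev (iter F l) x = z ∧ 1 ≤ g x} (fun _ => (1 : ℝ)) z *
            Q σ (fun _ : Fin 0 => ell) z := fun l _ =>
        mul_nonneg (Set.indicator_nonneg (fun _ _ => zero_le_one) _) (hQ z hz)
      by_cases hzK : z ∈ {z | r / (1 / (5 * C * C1)) ≤ phi h e z ^ A}
      · obtain ⟨l, hlt, x, hx, hxp⟩ := hdes z hz
        have h1 : r / (1 / (5 * C * C1)) ≤ phi h e z ^ A := hzK
        have h2 : 1 ≤ g x := by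
          refine hg1 x ?_
          have h3 : C * (5 * C1 * r) ≤ C * nv G m x := by
            refine le_trans (le_of_eq ?_) (h1.trans hxp)
            field_simp
          have h4 := le_of_mul_le_mul_left h3 hC0
          have h5 : 0 < C1 * r := by positivity
          linarith
        have h3 := Finset.single_le_sum hterm (Finset.mem_range.mpr (Nat.lt_succ_of_le hlt))
        refine le_trans (le_of_eq ?_) h3
        have h4 : z ∈ {z | ∃ x, ev (iter F l) x = z ∧ 1 ≤ g x} := ⟨x, hx, h2⟩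
        rw [Set.indicator_of_mem h4]
      · have h1 : Q σ (fun _ : Fin 0 => ell) z = 0 := by
          have h2 := ki_Q_S (S := σ) (S' := σ) (fun _ : Fin 0 => ell) z 0 (fun I J => by
            rw [hK z hz hzK I J]
            simp)
          rw [h2, zero_mul]
        rw [h1, mul_zero]
        exact Finset.sum_nonneg fun l hl => by
          have := hterm l hl
          rwa [h1] at this
    have plc : ∀ l ∈ Finset.range (t + 1),
        pair (Set.indicator {z | ∃ x, ev (iter F l) x = z ∧ 1 ≤ g x} (fun _ => 1)) σ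
          (fun _ : Fin 0 => ell) ≤ (d : ℝ) ^ ((k + 1) * l) * EE F d l σ g := by
      intro l _
      have h1 := hPLC k (d ^ l) (iter F l) σ g (Nat.one_le_pow _ _ (by omega)) (hIt l) hσ hgh
        (fun z _ => (hg01 z).1)
      refine h1.trans (le_of_eq ?_)
      have h2 : EE F d l σ g = ((d : ℝ) ^ (k * l))⁻¹ *
          pair g (pull (iter F l) σ) (fun _ : Fin 0 => ell) := by
        unfold EE
        refine ki_congr hk0 _ ?_
        intro z _
        rw [ki_Q_S (S := Sn F d l σ) (S' := pull (iter F l) σ) (fun _ : Fin 0 => ell) z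
          ((d : ℝ) ^ (k * l))⁻¹ (fun I J => by
            unfold Sn
            push_cast
            rfl)]
        ring
      rw [h2]
      have h3 : ((d : ℝ) ^ (k * l)) ≠ 0 := by positivity
      have h4 : (d : ℝ) ^ ((k + 1) * l) = (d : ℝ) ^ (k * l) * (d : ℝ) ^ l := by
        rw [← pow_add]
        congr 1
        ring
      rw [h4]
      push_cast
      field_simp
    have lt1 : ∑ l ∈ Finset.range (t + 1), (d : ℝ) ^ ((k + 1) * l) * EE F d l σ g <
        ∑ l ∈ Finset.range (t + 1), (d : ℝ) ^ ((k + 1) * l) *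
          (mass 0 σ / (((t : ℝ) + 1) * (d : ℝ) ^ ((k + 1) * t))) := by
      refine Finset.sum_lt_sum_of_nonempty ⟨0, Finset.mem_range.mpr (by omega)⟩ ?_
      intro l hl
      exact mul_lt_mul_of_pos_left (hno l (Nat.lt_succ_iff.mp (Finset.mem_range.mp hl)))
        (by positivity)
    have le2 : ∑ l ∈ Finset.range (t + 1), (d : ℝ) ^ ((k + 1) * l) *
          (mass 0 σ / (((t : ℝ) + 1) * (d : ℝ) ^ ((k + 1) * t))) ≤ mass 0 σ := by
      have h1 : ∀ l ∈ Finset.range (t + 1), (d : ℝ) ^ ((k + 1) * l) *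
          (mass 0 σ / (((t : ℝ) + 1) * (d : ℝ) ^ ((k + 1) * t))) ≤ (d : ℝ) ^ ((k + 1) * t) *
          (mass 0 σ / (((t : ℝ) + 1) * (d : ℝ) ^ ((k + 1) * t))) := by
        intro l hl
        refine mul_le_mul_of_nonneg_right (pow_le_pow_right₀ hdR ?_) (by positivity)
        exact Nat.mul_le_mul_left _ (Nat.lt_succ_iff.mp (Finset.mem_range.mp hl))
      refine (Finset.sum_le_sum h1).trans (le_of_eq ?_)
      rw [Finset.sum_const, Finset.card_range, nsmul_eq_mul]
      push_cast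
      have h2 : ((t : ℝ) + 1) ≠ 0 := by positivity
      have h3 : (d : ℝ) ^ ((k + 1) * t) ≠ 0 := by positivity
      field_simp
    have := (cov.trans (Finset.sum_le_sum plc)).trans_lt (lt1.trans_le le2)
    exact lt_irrefl _ this
  obtain ⟨l, hlt, hl⟩ := claim1
  have hlL : l ≤ L := hlt.trans htL
  have hSl : ProjForm (Sn F d l σ) := (hD12 (k + 1) d F hd1 hF 0 l).2.2.2.2 k σ hσ
  have hσ' : ProjForm (dens g (Sn F d l σ)) := hPDE k g (Sn F d l σ) hSl hgh
    (fun z _ => (hg01 z).1)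
  have hmass' : mass 0 (dens g (Sn F d l σ)) = EE F d l σ g :=
    (hPMK k d 0 l F σ hd hF hσ).2.2.2.1 g
  have hm' : 0 ≤ mass 0 (dens g (Sn F d l σ)) := (hP5 (k + 1) k 0 d _ (by omega) hσ').2.2
  have h0 : ∀ j < j0, EE F d j (dens g (Sn F d l σ))
      (fun x => noV F (vis P M r) j 0 j x * vis P M r x) = 0 := by
    intro j hj
    rw [← (hPMK k d j l F σ hd hF hσ).2.2.1 g
      (fun x => noV F (vis P M r) j 0 j x * vis P M r x)]
    have h1 : EE F d (l + j) σ (fun x => g (ev (iter F j) x) *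
        (noV F (vis P M r) j 0 j x * vis P M r x)) = 0 * EE F d (l + j) σ (fun _ => 1) := by
      unfold EE
      refine ki_congr hk0 0 ?_
      intro z hz
      have h2 : g (ev (iter F j) z) * (noV F (vis P M r) j 0 j z * vis P M r z) = 0 := by
        by_cases h3 : g (ev (iter F j) z) = 0
        · rw [h3, zero_mul]
        · have h4 := hg0 _ h3
          have h5 := hC1' j hj z hz
          have h6 : 2 * r < nv P M z := by
            by_contra hle
            push Not at hle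
            have : C1 * nv P M z ≤ C1 * (2 * r) := mul_le_mul_of_nonneg_left hle hC1.le
            linarith
          have h7 : vis P M r z = 0 := by
            by_contra hne
            linarith [hv3 z hne]
          rw [h7, mul_zero, mul_zero]
      rw [h2, zero_mul, zero_mul]
    rw [h1, zero_mul]
  have hL' : ((L - l : ℕ) : ℝ) ≤ 1 / (16 * CF) * Real.log (1 / r) := by
    have : ((L - l : ℕ) : ℝ) ≤ L := by exact_mod_cast Nat.sub_le L l
    exact this.trans hL
  have core := prc_core hPMK hPSA hPVI hD12 hP1 hL1 hd hF hN.hom hCF hr hr2 hlog hL' hσ' hm' hj1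
    hj0 h0 hFV
  have e1 := (hPMK k d (L - l) l F σ hd hF hσ).2.2.1 g
    (noV F (vis P M r) (L - l) 0 (L - l + 1))
  rw [← e1] at core
  have e2 : l + (L - l) = L := by omega
  rw [e2] at core
  have e3 : EE F d L σ (fun x => g (ev (iter F (L - l)) x) *
      noV F (vis P M r) (L - l) 0 (L - l + 1) x) ≤
      EE F d L σ (noV F (vis P M r) L t (L + 1)) := by
    refine (hPMK k d L 0 F σ hd hF hσ).2.2.2.2.1 _ _
      (prc_hom_mul (prc_hom_comp hL1 (hIt (L - l)) hgh)
        (prc_hom_noV hL1 hD12 hd1 hF hv0 _ _ _)) (prc_hom_noV hL1 hD12 hd1 hF hv0 _ _ _) ?_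
    intro z _
    have h1 := (hg01 (ev (iter F (L - l)) z)).2
    have h2 := (prc_noV_mem F hv1 (L - l) 0 (L - l + 1) z).1
    have h3 := prc_noV_shift F (vis P M r) hlL z
    have h4 := prc_noV_mono F hv1 (L := L) (b := L + 1) hlt (by omega) z
    rw [h3] at h4
    calc g (ev (iter F (L - l)) z) * noV F (vis P M r) (L - l) 0 (L - l + 1) z ≤
        1 * noV F (vis P M r) (L - l) 0 (L - l + 1) z := mul_le_mul_of_nonneg_right h1 h2
      _ = noV F (vis P M r) (L - l) 0 (L - l + 1) z := one_mul _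
      _ ≤ _ := h4
  refine le_trans ?_ e3
  refine le_trans ?_ core
  rw [hmass']
  calc 3 / 4 / (((t : ℝ) + 1) * (d : ℝ) ^ ((k + 1) * t)) * mass 0 σ =
      3 / 4 * (mass 0 σ / (((t : ℝ) + 1) * (d : ℝ) ^ ((k + 1) * t))) := by ring
    _ ≤ 3 / 4 * EE F d l σ g := mul_le_mul_of_nonneg_left hl (by norm_num)

end Pool.Agent.H80.EQ
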