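import Pool.Agent.H92.EQ.TK
import Pool.Agent.H84.EQ.P7

/-!
Board eqd_modules, row KI: the last term.
-/

namespace Pool.Agent.H80.EQ

open scoped BigOperators ComplexConjugate ContDiff ComplexOrder
open MeasureTheory
open Pool.Agent.H92.EQ

theorem ki_meas {N : ℕ} {f : (Fin N → ℂ) → ℝ} (hf : ContinuousOn f {0}ᶜ) : Measurable f := by
  classical
  have h := ContinuousOn.measurable_piecewise (s := ({0}ᶜ : Set (Fin N → ℂ))) (f := f)
    (g := fun _ => f 0) hf continuousOn_const (measurableSet_singleton 0).compl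
  have e : ({0}ᶜ : Set (Fin N → ℂ)).piecewise f (fun _ => f 0) = f := by
    funext z
    by_cases hz : z = 0
    · rw [Set.piecewise_eq_of_notMem _ _ _ (by simp [hz]), hz]
    · rw [Set.piecewise_eq_of_mem _ _ _ hz]
  rwa [e] at h

theorem ki_ne {N : ℕ} (h : 0 < N) (s : Set (Fin N → ℂ)) :
    ∀ᵐ z ∂((volume : Measure (Fin N → ℂ)).restrict s), z ≠ 0 := by
  have : Nonempty (Fin N) := ⟨⟨0, h⟩⟩
  have h0 : (volume : Measure (Fin N → ℂ)) {0} = 0 := measure_singleton _
  refine ae_restrict_of_ae ?_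
  rw [ae_iff]
  simp

theorem ki_congr {N p q p' q' : ℕ} (hN : 0 < N) {φ ψ : (Fin N → ℂ) → ℝ} {S : Form (Fin N) p}
    {S' : Form (Fin N) p'} {u : Fin q → (Fin N → ℂ) → ℝ} {v : Fin q' → (Fin N → ℂ) → ℝ} (c : ℝ)
    (h : ∀ z, z ≠ 0 → φ z * Q S u z = c * (ψ z * Q S' v z)) :
    pair φ S u = c * pair ψ S' v := by
  unfold pair Iint
  rw [← integral_const_mul]
  refine integral_congr_ae ?_
  filter_upwards [ki_ne hN {z : Fin N → ℂ | 0 ≤ ell z ∧ ell z < 1}] with z hz
  exact h z hz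

theorem ki_hess_congr {N : ℕ} {f g : (Fin N → ℂ) → ℝ} (z : Fin N → ℂ)
    (h : f =ᶠ[nhds z] g) : hessR f z = hessR g z := by
  have h1 : (fun w => ((f w : ℝ) : ℂ)) =ᶠ[nhds z] fun w => ((g w : ℝ) : ℂ) :=
    h.mono fun w hw => by simp only [hw]
  ext a b
  unfold hessR hess
  have h2 : (fun w => wdb b (fun w => ((f w : ℝ) : ℂ)) w) =ᶠ[nhds z]
      fun w => wdb b (fun w => ((g w : ℝ) : ℂ)) w := by
    filter_upwards [h1.eventuallyEq_nhds] with w hw
    unfold wdb
    rw [hw.fderiv_eq]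
  unfold wd
  rw [h2.fderiv_eq]

theorem ki_Q_congr {N p q : ℕ} (S : Form (Fin N) p) {u v : Fin q → (Fin N → ℂ) → ℝ}
    (h : ∀ j z, z ≠ 0 → u j z = v j z) (z : Fin N → ℂ) (hz : z ≠ 0) : Q S u z = Q S v z := by
  unfold Q
  have e : (fun j => hessR (u j) z) = fun j => hessR (v j) z := by
    funext j
    refine ki_hess_congr z ?_
    filter_upwards [isOpen_compl_singleton.mem_nhds (show z ∈ ({0}ᶜ : Set (Fin N → ℂ)) from hz)]
      with w hw
    exact h j w hw
  rw [e]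

theorem ki_Q_S {N p q : ℕ} {S S' : Form (Fin N) p} (u : Fin q → (Fin N → ℂ) → ℝ)
    (z : Fin N → ℂ) (c : ℝ) (h : ∀ I J, S z I J = (c : ℂ) * S' z I J) :
    Q S u z = c * Q S' u z := by
  unfold Q
  rw [← Complex.re_ofReal_mul]
  congr 1
  unfold mixD
  rw [Finset.mul_sum]
  refine Finset.sum_congr rfl fun e _ => ?_
  rw [Finset.mul_sum]
  refine Finset.sum_congr rfl fun e' _ => ?_
  rw [h]
  ring

theorem ki_Cr_meas {N : ℕ} (F : Fin N → MvPolynomial (Fin N) ℂ) (d : ℕ) (r : ℝ) :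
    MeasurableSet (Cr F d r) := by
  have h1 : Continuous fun z : Fin N → ℂ => MvPolynomial.eval z (detP F) :=
    MvPolynomial.continuous_eval _
  have h2 : Continuous fun z : Fin N → ℂ => nrm z := by
    unfold nrm nsq
    exact Real.continuous_sqrt.comp
      (continuous_finsetSum _ fun i _ => (continuous_norm.comp (continuous_apply i)).pow 2)
  have h3 : Measurable fun z : Fin N → ℂ => nv (detP F) (N * (d - 1)) z := by
    unfold nv
    exact h1.norm.measurable.div (h2.pow _).measurable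
  exact measurableSet_lt h3 measurable_const

theorem ki_LH {N : ℕ} {v : (Fin N → ℂ) → ℝ} (hv : Pot v) : LH 1 v :=
  ⟨hv.smooth, fun l z hl hz => by rw [hv.loghom l z hl hz, one_mul]⟩

/-- Absorbing all the potentials. -/
theorem ki_absorb (hKH : T_KH) {N d i : ℕ} {F : Fin N → MvPolynomial (Fin N) ℂ} (hd : 2 ≤ d)
    (hF : IsH d F) (hG : ∀ n, Pot (Gn F d n)) (hell : Pot (ell : (Fin N → ℂ) → ℝ))
    {f : (Fin N → ℂ) → ℝ} (hf : Hom0 f) :
    ∀ (q p : ℕ) (S : Form (Fin N) p), p + q + 1 = N → ProjForm S →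
      ∃ (p' : ℕ) (σ : Form (Fin N) p'), p' + 1 = N ∧ ProjForm σ ∧ mass 0 σ = mass q S ∧
        pair f (Sn F d i S) (fun _ : Fin q => Gn F d i) =
          pair f (Sn F d i σ) (fun _ : Fin 0 => ell) := by
  intro q
  induction q with
  | zero =>
    intro p S hN hS
    refine ⟨p, S, hN, hS, rfl, ?_⟩
    congr 1
    funext j
    exact j.elim0
  | succ q ih =>
    intro p S hN hS
    obtain ⟨k1, k2, k3⟩ := hKH N d p q i 0 F S ell f (fun _ : Fin q => Gn F d i) hd
      (by omega) hF hS hell (fun _ => hG i) hf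
    obtain ⟨p', σ, a1, a2, a3, a4⟩ := ih (p + 1)
      (fun z => wedge (Sn F d 0 S z) (hessR ell z)) (by omega) k1
    refine ⟨p', σ, a1, a2, a3.trans k2, ?_⟩
    rw [← a4, ← k3, Nat.zero_add]
    congr 1
    funext j
    refine Fin.cases ?_ (fun j => ?_) j
    · rfl
    · rfl

/-- Row KI. -/
theorem pf_KI (hG4 : T_G4) (hKA : T_KA) (hKH : T_KH) (hD12 : T_D12) (hP1 : T_P1) (hP3 : T_P3)
    (hP5 : T_P5) (hD7 : T_D7) (hL3 : T_L3) (hL6 : T_L6) : T_KI := by
  intro N d p q m i F S f h r a b hd hN hF hS hmS hf hh ha hb hHit hf1 hf2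
  obtain ⟨hG, hGr, -⟩ := hKA N d F hd hF
  have hell : Pot (ell : (Fin N → ℂ) → ℝ) := (hL3 N).1
  have hd1 : 1 ≤ d := by omega
  have hd0 : (0 : ℝ) < d := by exact_mod_cast hd1
  have hN0 : 0 < N := by omega
  have hS1 : ProjForm (Sn F d i S) := (hD12 N d F hd1 hF 0 i).2.2.2.2 p S hS
  have hΦ : IsH (d ^ m) (iter F m) := (hD12 N d F hd1 hF 0 m).1
  -- the degree formula
  obtain ⟨Bf, hBf0, hBf⟩ := (hL6 N).1 f hf.smooth.continuousOn (fun t z ht hz =>
    hf.hom (t : ℂ) z (by exact_mod_cast ht.ne') hz)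
  have hB : ∀ z, |f z| ≤ max Bf |f 0| := by
    intro z
    by_cases hz : z = 0
    · rw [hz]
      exact le_max_right _ _
    · exact (hBf z hz).trans (le_max_left _ _)
  have g4 := hG4 N p q (d ^ m) (iter F m) (Sn F d i S) (fun _ => Gn F d i) (fun _ => 1) f
    (max Bf |f 0|) hN (Nat.one_le_pow _ _ (by omega)) hΦ hS1 (fun _ => ki_LH (hG i))
    (ki_meas hf.smooth.continuousOn) hB hf.hom
  have e1 : pair (fun z => f (ev (iter F m) z)) (Sn F d (i + m) S)
      (fun _ : Fin q => Gn F d (i + m)) =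
      ((1 / (d : ℝ) ^ m) ^ q * ((d : ℝ) ^ (p * m))⁻¹) *
        pair (fun z => f (ev (iter F m) z)) (pull (iter F m) (Sn F d i S))
          (fun (_ : Fin q) z => Gn F d i (ev (iter F m) z)) := by
    refine ki_congr hN0 _ ?_
    intro z hz
    have q1 : Q (Sn F d (i + m) S) (fun _ : Fin q => Gn F d (i + m)) z =
        Q (Sn F d (i + m) S)
          (fun (_ : Fin q) z => (1 / (d : ℝ) ^ m) * Gn F d i (ev (iter F m) z)) z := by
      refine ki_Q_congr _ ?_ z hz
      intro _ w hw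
      rw [add_comm i m]
      exact hGr m i w hw
    have q2 := Pool.Agent.H84.EQ.Q_smul (Sn F d (i + m) S) (1 / (d : ℝ) ^ m)
      (fun (_ : Fin q) z => Gn F d i (ev (iter F m) z)) z
    have q3 : Q (Sn F d (i + m) S) (fun (_ : Fin q) z => Gn F d i (ev (iter F m) z)) z =
        ((d : ℝ) ^ (p * m))⁻¹ * Q (pull (iter F m) (Sn F d i S))
          (fun (_ : Fin q) z => Gn F d i (ev (iter F m) z)) z := by
      refine ki_Q_S _ z _ ?_
      intro I J
      rw [(hD12 N d F hd1 hF i m).2.2.2.1 p S z]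
      unfold Sn
      push_cast
      rfl
    rw [q1, q2, q3]
    ring
  have e2 : ((1 / (d : ℝ) ^ m) ^ q * ((d : ℝ) ^ (p * m))⁻¹) * (((d ^ m : ℕ) : ℝ) ^ (N - 1)) = 1 := by
    have hN1 : N - 1 = p + q := by omega
    rw [hN1]
    push_cast
    have h1 : ((d : ℝ) ^ m) ≠ 0 := by positivity
    rw [one_div, mul_comm p m, pow_mul (d : ℝ) m p, inv_pow, pow_add]
    field_simp
  have e3 : pair (fun z => f (ev (iter F m) z)) (Sn F d (i + m) S)
      (fun _ : Fin q => Gn F d (i + m)) = pair f (Sn F d i S) (fun _ : Fin q => Gn F d i) := by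
    rw [e1, g4, ← mul_assoc, e2, one_mul]
  obtain ⟨p', σ, a1, a2, a3, a4⟩ := ki_absorb hKH (i := i) hd hF hG hell hf q p S hN hS
  rw [e3, a4]
  have hpp : p' = p + q := by omega
  subst hpp
  have hm0 : mass q (om N p) = mass 0 (om N (p + q)) := ((hD7 N p).2 q hN).2
  have hσ1 : ProjForm (Sn F d i σ) := (hD12 N d F hd1 hF 0 i).2.2.2.2 _ σ a2
  have hmσ : mass 0 σ = mass 0 (om N (p + q)) := by rw [a3, hmS, hm0]
  have hhit := hHit (p + q) a1 σ a2 hmσ
  have hN' : (p + q) + 0 + 1 = N := by omega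
  have hmσ' : mass 0 (Sn F d i σ) = mass 0 (om N (p + q)) := by
    rw [(hP5 N (p + q) 0 d σ hN' a2).2.1 F i hd1 hF, hmσ]
  have hLH : ∀ j : Fin 0, LH ((fun _ : Fin 0 => (1 : ℝ)) j)
      ((fun _ : Fin 0 => (ell : (Fin N → ℂ) → ℝ)) j) := fun j => j.elim0
  have hPot : ∀ j : Fin 0, Pot ((fun _ : Fin 0 => (ell : (Fin N → ℂ) → ℝ)) j) := fun j => j.elim0
  obtain ⟨i1, i2⟩ := hP1 N (p + q) 0 (Sn F d i σ) (fun _ => ell) (fun _ => 1) hN' hσ1 hLH
  have hQ := (hP3 N (p + q) 0 (Sn F d i σ) (fun _ => ell) hN' hσ1 hPot).1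
  have ind1 : IntegrableOn (fun z => Set.indicator (Cr F d r) (fun _ => (1 : ℝ)) z *
      Q (Sn F d i σ) (fun _ : Fin 0 => ell) z) {z : Fin N → ℂ | 0 ≤ ell z ∧ ell z < 1} := by
    refine i1 (Set.indicator (Cr F d r) (fun _ => (1 : ℝ))) 1
      (measurable_const.indicator (ki_Cr_meas F d r)) ?_
    intro z _
    by_cases hz : z ∈ Cr F d r
    · rw [Set.indicator_of_mem hz, abs_one]
    · rw [Set.indicator_of_notMem hz, abs_zero]
      exact zero_le_one
  have ind2 : IntegrableOn (fun z => (1 : ℝ) *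
      Q (Sn F d i σ) (fun _ : Fin 0 => ell) z) {z : Fin N → ℂ | 0 ≤ ell z ∧ ell z < 1} :=
    i1 (fun _ => 1) 1 measurable_const (fun z _ => by rw [abs_one])
  have ind3 := i2 f hf.smooth.continuousOn
  have le1 : pair f (Sn F d i σ) (fun _ : Fin 0 => ell) ≤
      a * pair (Set.indicator (Cr F d r) (fun _ => 1)) (Sn F d i σ) (fun _ : Fin 0 => ell) +
        b * mass 0 (Sn F d i σ) := by
    unfold mass pair Iint
    rw [← integral_const_mul, ← integral_const_mul,
      ← integral_add (ind1.const_mul a) (ind2.const_mul b)]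
    refine integral_mono_ae ind3 ((ind1.const_mul a).add (ind2.const_mul b)) ?_
    filter_upwards [ki_ne hN0 {z : Fin N → ℂ | 0 ≤ ell z ∧ ell z < 1}] with z hz
    have hq := hQ z hz
    by_cases hc : z ∈ Cr F d r
    · simp only [Set.indicator_of_mem hc]
      have := hf1 z hz
      nlinarith
    · simp only [Set.indicator_of_notMem hc]
      have := hf2 z hz hc
      nlinarith
  rw [hmσ'] at le1
  rw [hm0]
  have le2 := mul_le_mul_of_nonneg_left hhit ha
  linarith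

end Pool.Agent.H80.EQ
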