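import Pool.Agent.H92.EQ.TK

/-!
Board eqd_modules, row KF: uniform smallness.
-/

namespace Pool.Agent.H80.EQ

open scoped BigOperators ComplexConjugate ContDiff ComplexOrder
open MeasureTheory
open Pool.Agent.H92.EQ

theorem kf_LH {N : ℕ} {v : (Fin N → ℂ) → ℝ} (hv : Pot v) : LH 1 v :=
  ⟨hv.smooth, fun l z hl hz => by rw [hv.loghom l z hl hz, one_mul]⟩

theorem kf_Hom0 {N : ℕ} {v w : (Fin N → ℂ) → ℝ} (hv : Pot v) (hw : Pot w) :
    Hom0 (fun z => v z - w z) :=
  ⟨hv.smooth.sub hw.smooth, fun l z hl hz => by
    rw [hv.loghom l z hl hz, hw.loghom l z hl hz]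
    ring⟩

/-- Replacing the potentials in all the slots. -/
theorem kf_slots (hP7 : T_P7) {N p q : ℕ} (hN : p + q + 1 = N) {T : Form (Fin N) p}
    (hT : ProjForm T) {v v' : (Fin N → ℂ) → ℝ} (hv : Pot v) (hv' : Pot v')
    {U V : Fin q → (Fin N → ℂ) → ℝ} (hU : ∀ j, Pot (U j)) (hV : ∀ j, Pot (V j)) {b : ℝ}
    (hb : ∀ j z, z ≠ 0 → |U j z - V j z| ≤ b) :
    |pair (fun z => v z - v' z) T U - pair (fun z => v z - v' z) T V| ≤
      q * (2 * b * mass q T) := by
  have key : ∀ s : Finset (Fin q),
      |pair (fun z => v z - v' z) T (fun i => if i ∈ s then U i else V i) -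
        pair (fun z => v z - v' z) T V| ≤ s.card * (2 * b * mass q T) := by
    intro s
    induction s using Finset.induction_on with
    | empty => simp
    | insert a s ha ih =>
      have hW : ∀ i, Pot ((fun i => if i ∈ s then U i else V i) i) := by
        intro i
        by_cases h : i ∈ s
        · simp only [h, if_true]
          exact hU i
        · simp only [h, if_false]
          exact hV i
      have s1 : (fun i => if i ∈ insert a s then U i else V i) =
          Function.update (fun i => if i ∈ s then U i else V i) a (U a) := by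
        funext i
        by_cases h : i = a
        · subst h
          rw [Function.update_self]
          simp
        · rw [Function.update_of_ne h]
          simp [Finset.mem_insert, h]
      have s2 : (fun i => if i ∈ s then U i else V i) =
          Function.update (fun i => if i ∈ s then U i else V i) a (V a) := by
        funext i
        by_cases h : i = a
        · subst h
          rw [Function.update_self]
          simp [ha]
        · rw [Function.update_of_ne h]
      have e := hP7 N p q T (fun i => if i ∈ s then U i else V i) a (U a) (V a) v v' b hN hT hW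
        (hU a) (hV a) hv hv' (hb a)
      rw [← s1, ← s2] at e
      rw [Finset.card_insert_of_notMem ha]
      push_cast
      have t := abs_sub_le (pair (fun z => v z - v' z) T (fun i => if i ∈ insert a s then U i else V i))
        (pair (fun z => v z - v' z) T (fun i => if i ∈ s then U i else V i))
        (pair (fun z => v z - v' z) T V)
      linarith
  have k := key Finset.univ
  simp only [Finset.mem_univ, if_true, Finset.card_univ, Fintype.card_fin] at k
  exact k

/-- Replacing the function. -/
theorem kf_fun (hP1 : T_P1) (hP3 : T_P3) {N p q : ℕ} (hN : p + q + 1 = N) {T : Form (Fin N) p}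
    (hT : ProjForm T) {v w v' : (Fin N → ℂ) → ℝ} (hv : Pot v) (hw : Pot w) (hv' : Pot v')
    {U : Fin q → (Fin N → ℂ) → ℝ} (hU : ∀ j, Pot (U j)) {b : ℝ}
    (hb : ∀ z, z ≠ 0 → |v z - w z| ≤ b) :
    |pair (fun z => v z - v' z) T U - pair (fun z => w z - v' z) T U| ≤ b * mass q T := by
  have hI := (hP1 N p q T U (fun _ => 1) hN hT (fun j => kf_LH (hU j))).2
  have e : pair (fun z => v z - v' z) T U - pair (fun z => w z - v' z) T U =
      pair (fun z => v z - w z) T U := by
    unfold pair Iint
    rw [← integral_sub (hI _ (hv.smooth.sub hv'.smooth).continuousOn)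
      (hI _ (hw.smooth.sub hv'.smooth).continuousOn)]
    refine integral_congr_ae (Filter.Eventually.of_forall fun z => ?_)
    simp only
    ring
  rw [e]
  exact (hP3 N p q T U hN hT hU).2.2.2 _ b hb

theorem kf_choose {d : ℕ} (hd : 2 ≤ d) {X η : ℝ} (hX : 0 ≤ X) (hη : 0 < η) :
    ∃ l : ℕ, X * (1 / (d : ℝ) ^ l) ≤ η := by
  have hd' : (1 : ℝ) < d := by exact_mod_cast (by omega : 1 < d)
  have h1 : (1 / (d : ℝ)) < 1 := by
    rw [div_lt_one (by linarith)]
    exact hd'
  obtain ⟨l, hl⟩ := exists_pow_lt_of_lt_one (show (0 : ℝ) < η / (X + 1) by positivity) h1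
  refine ⟨l, ?_⟩
  rw [one_div_pow] at hl
  have h2 : (0 : ℝ) ≤ 1 / (d : ℝ) ^ l := by positivity
  rw [lt_div_iff₀ (by linarith)] at hl
  nlinarith

/-- Row KF. -/
theorem pf_KF (hKA : T_KA) (hP1 : T_P1) (hP3 : T_P3) (hP5 : T_P5) (hP7 : T_P7) (hD12 : T_D12)
    (hL3 : T_L3) (hD7 : T_D7) : T_KF := by
  intro N d p q F hd hN hF hC η hη
  obtain ⟨hG, -, B, hB0, -, hB⟩ := hKA N d F hd hF
  have hell : Pot (ell : (Fin N → ℂ) → ℝ) := (hL3 N).1
  have hd1 : 1 ≤ d := by omega
  have hom : ProjForm (om N p) := (hD7 N p).1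
  have hc0 : 0 ≤ mass q (om N p) := (hP5 N p q d (om N p) hN hom).2.2
  set c0 := mass q (om N p) with hc0def
  obtain ⟨l, hl⟩ := kf_choose hd (show (0 : ℝ) ≤ 2 * ((2 * q + 1) * (B * c0)) by positivity)
    (half_pos hη)
  -- slots
  have hsl : ∀ (n j : ℕ) (k : Fin q),
      Pot ((fun k : Fin q => if (k : ℕ) < j then Gn F d n else ell) k) := by
    intro n j k
    by_cases h : (k : ℕ) < j
    · simp only [h, if_true]
      exact hG n
    · simp only [h, if_false]
      exact hell
  have hconv : ∀ j : ℕ, ∃ n0 : ℕ, ∀ m ≥ n0, ∀ S : Form (Fin N) p, ProjForm S →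
      mass q S = mass q (om N p) →
      |pair (fun z => Gn F d l z - ell z) (Sn F d m S)
          (fun k : Fin q => if (k : ℕ) < j then Gn F d l else ell) -
        pair (fun z => Gn F d l z - ell z) (Sn F d m (om N p))
          (fun k : Fin q => if (k : ℕ) < j then Gn F d l else ell)| < η / 8 := fun j =>
    hC q hN _ _ (kf_Hom0 (hG l) hell) (hsl l j) (η / 8) (by positivity)
  choose n0 hn0 using hconv
  refine ⟨max l ((Finset.range (q + 1)).sup n0), ?_⟩
  intro m hm n hn j R R' hR hR' hmR hmR'
  have hml : l ≤ m := (le_max_left _ _).trans hm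
  have hln : l ≤ n := hml.trans hn
  -- reduction to j ≤ q
  have hj : (fun k : Fin q => if (k : ℕ) < j then Gn F d n else (ell : (Fin N → ℂ) → ℝ)) =
      fun k : Fin q => if (k : ℕ) < min j q then Gn F d n else ell := by
    funext k
    have hk := k.isLt
    by_cases h : (k : ℕ) < j
    · rw [if_pos h, if_pos (lt_min h hk)]
    · rw [if_neg h, if_neg (fun h' => h (lt_of_lt_of_le h' (min_le_left _ _)))]
  rw [hj]
  set i := min j q with hi
  have hi' : n0 i ≤ m := by
    have h1 : n0 i ≤ (Finset.range (q + 1)).sup n0 :=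
      Finset.le_sup (f := n0) (Finset.mem_range.mpr (Nat.lt_succ_of_le (min_le_right _ _)))
    exact h1.trans ((le_max_right _ _).trans hm)
  -- error for one form
  have err : ∀ S : Form (Fin N) p, ProjForm S → mass q S = c0 →
      |pair (fun z => Gn F d n z - ell z) (Sn F d m S)
          (fun k : Fin q => if (k : ℕ) < i then Gn F d n else ell) -
        pair (fun z => Gn F d l z - ell z) (Sn F d m S)
          (fun k : Fin q => if (k : ℕ) < i then Gn F d l else ell)| ≤
        (2 * q + 1) * (B * c0) * (1 / (d : ℝ) ^ l) := by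
    intro S hS hmS
    have hT : ProjForm (Sn F d m S) := (hD12 N d F hd1 hF 0 m).2.2.2.2 p S hS
    have hmT : mass q (Sn F d m S) = c0 := by
      rw [(hP5 N p q d S hN hS).2.1 F m hd1 hF, hmS]
    have a1 := kf_fun hP1 hP3 hN hT (hG n) (hG l) hell (hsl n i) (b := B / (d : ℝ) ^ l)
      (fun z hz => hB l n z hln hz)
    have a2 := kf_slots hP7 hN hT (hG l) hell (hsl n i) (hsl l i) (b := B / (d : ℝ) ^ l) (by
      intro k z hz
      by_cases h : (k : ℕ) < i
      · simp only [h, if_true]
        exact hB l n z hln hz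
      · simp only [h, if_false, sub_self, abs_zero]
        positivity)
    rw [hmT] at a1 a2
    have t := abs_sub_le (pair (fun z => Gn F d n z - ell z) (Sn F d m S)
          (fun k : Fin q => if (k : ℕ) < i then Gn F d n else ell))
        (pair (fun z => Gn F d l z - ell z) (Sn F d m S)
          (fun k : Fin q => if (k : ℕ) < i then Gn F d n else ell))
        (pair (fun z => Gn F d l z - ell z) (Sn F d m S)
          (fun k : Fin q => if (k : ℕ) < i then Gn F d l else ell))
    refine t.trans ((add_le_add a1 a2).trans (le_of_eq ?_))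
    ring
  have e1 := err R hR hmR
  have e2 := err R' hR' hmR'
  have e3 := hn0 i m hi' R hR hmR
  have e4 := hn0 i m hi' R' hR' hmR'
  have e5 : (2 * q + 1) * (B * c0) * (1 / (d : ℝ) ^ l) +
      (2 * q + 1) * (B * c0) * (1 / (d : ℝ) ^ l) ≤ η / 2 := by
    refine le_trans (le_of_eq ?_) hl
    ring
  rw [abs_le] at e1 e2 ⊢
  rw [abs_lt] at e3 e4
  constructor
  · linarith [e1.1, e2.2, e3.1, e4.2]
  · linarith [e1.2, e2.1, e3.2, e4.1]

end Pool.Agent.H80.EQ
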