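import Pool.Agent.H92.EQ.TF1

/-!
Board eqd_modules, row W9: the function `log |z|`.
-/

namespace Pool.Agent.H80.EQ

open scoped BigOperators ComplexConjugate ContDiff ComplexOrder
open MeasureTheory
open Pool.Agent.H92.EQ

noncomputable section

variable {ι : Type} [Fintype ι] [DecidableEq ι]

theorem w9_two_le : (2 : WithTop ℕ∞) ≤ ∞ := by
  rw [show (2 : WithTop ℕ∞) = ((2 : ℕ∞) : WithTop ℕ∞) from rfl]
  exact WithTop.coe_le_coe.mpr le_top

theorem w9_nsq_pos (z : ι → ℂ) (hz : z ≠ 0) : 0 < nsq z := by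
  obtain ⟨i, hi⟩ : ∃ i, z i ≠ 0 := by
    by_contra h
    push Not at h
    exact hz (funext h)
  unfold nsq
  refine lt_of_lt_of_le (pow_pos (norm_pos_iff.mpr hi) 2)
    (Finset.single_le_sum (f := fun i => ‖z i‖ ^ 2) (fun j _ => by positivity)
      (Finset.mem_univ i))

theorem w9_nsq_smooth : ContDiff ℝ ∞ (nsq : (ι → ℂ) → ℝ) := by
  unfold nsq
  refine ContDiff.sum fun i _ => ?_
  exact (contDiff_apply ℝ ℂ i).norm_sq ℝ

/-- The differential of the coordinate. -/
theorem w9_coord (i : ι) (z v : ι → ℂ) :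
    fderiv ℝ (fun w : ι → ℂ => w i) z v = v i := by
  have h : HasFDerivAt (fun w : ι → ℂ => w i)
      (ContinuousLinearMap.proj (R := ℝ) (φ := fun _ : ι => ℂ) i) z :=
    (ContinuousLinearMap.proj (R := ℝ) (φ := fun _ : ι => ℂ) i).hasFDerivAt
  rw [h.fderiv]
  rfl

/-- The differential of `cx nsq`. -/
theorem w9_dnsq (z v : ι → ℂ) :
    fderiv ℝ (cx (nsq : (ι → ℂ) → ℝ)) z v = ∑ i, (z i * conj (v i) + conj (z i) * v i) := by
  have e : cx (nsq : (ι → ℂ) → ℝ) = fun w : ι → ℂ => ∑ i, w i * conj (w i) := by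
    funext w
    unfold cx nsq
    push_cast
    refine Finset.sum_congr rfl fun i _ => ?_
    rw [Complex.mul_conj, Complex.normSq_eq_norm_sq]
    push_cast
    rfl
  rw [e]
  have h1 : ∀ i, HasFDerivAt (fun w : ι → ℂ => w i)
      (ContinuousLinearMap.proj (R := ℝ) (φ := fun _ : ι => ℂ) i) z := fun i =>
    (ContinuousLinearMap.proj (R := ℝ) (φ := fun _ : ι => ℂ) i).hasFDerivAt
  have h2 : ∀ i, HasFDerivAt (fun w : ι → ℂ => conj (w i))
      ((Complex.conjCLE : ℂ →L[ℝ] ℂ).comp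
        (ContinuousLinearMap.proj (R := ℝ) (φ := fun _ : ι => ℂ) i)) z := fun i =>
    ((Complex.conjCLE : ℂ →L[ℝ] ℂ).hasFDerivAt).comp z (h1 i)
  have h3 := HasFDerivAt.fun_sum (u := Finset.univ) (fun i _ => (h1 i).mul (h2 i))
  have h4 : HasFDerivAt (fun w : ι → ℂ => ∑ i, w i * conj (w i)) _ z := h3
  rw [h4.fderiv]
  simp

theorem w9_wd_nsq (a : ι) (z : ι → ℂ) : wd a (cx nsq) z = conj (z a) := by
  unfold wd
  rw [w9_dnsq, w9_dnsq]
  have e1 : ∑ i, (z i * conj ((Pi.single a (1 : ℂ) : ι → ℂ) i) +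
      conj (z i) * (Pi.single a (1 : ℂ) : ι → ℂ) i) = z a + conj (z a) := by
    rw [Finset.sum_eq_single a]
    · simp
    · intro b _ hb
      simp [Pi.single_eq_of_ne hb]
    · simp
  have e2 : ∑ i, (z i * conj ((Pi.single a Complex.I : ι → ℂ) i) +
      conj (z i) * (Pi.single a Complex.I : ι → ℂ) i) = -(z a * Complex.I) +
        conj (z a) * Complex.I := by
    rw [Finset.sum_eq_single a]
    · simp
    · intro b _ hb
      simp [Pi.single_eq_of_ne hb]
    · simp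
  rw [e1, e2]
  linear_combination ((z a - conj (z a)) / 2) * Complex.I_mul_I

theorem w9_wdb_nsq (a : ι) (z : ι → ℂ) : wdb a (cx nsq) z = z a := by
  unfold wdb
  rw [w9_dnsq, w9_dnsq]
  have e1 : ∑ i, (z i * conj ((Pi.single a (1 : ℂ) : ι → ℂ) i) +
      conj (z i) * (Pi.single a (1 : ℂ) : ι → ℂ) i) = z a + conj (z a) := by
    rw [Finset.sum_eq_single a]
    · simp
    · intro b _ hb
      simp [Pi.single_eq_of_ne hb]
    · simp
  have e2 : ∑ i, (z i * conj ((Pi.single a Complex.I : ι → ℂ) i) +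
      conj (z i) * (Pi.single a Complex.I : ι → ℂ) i) = -(z a * Complex.I) +
        conj (z a) * Complex.I := by
    rw [Finset.sum_eq_single a]
    · simp
    · intro b _ hb
      simp [Pi.single_eq_of_ne hb]
    · simp
  rw [e1, e2]
  linear_combination (-(z a - conj (z a)) / 2) * Complex.I_mul_I

theorem w9_wd_coord (a b : ι) (z : ι → ℂ) :
    wd a (fun w => w b) z = if a = b then 1 else 0 := by
  unfold wd
  rw [w9_coord, w9_coord]
  by_cases h : a = b
  · subst h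
    simp
  · have h' : b ≠ a := fun e => h e.symm
    simp [h]

theorem w9_hess_nsq (z : ι → ℂ) (a b : ι) :
    hessR nsq z a b = if a = b then 1 else 0 := by
  have e : (fun w : ι → ℂ => wdb b (fun w => ((nsq w : ℝ) : ℂ)) w) = fun w => w b := by
    funext w
    exact w9_wdb_nsq b w
  unfold hessR hess
  rw [e]
  exact w9_wd_coord a b z

theorem w9_deriv1 : deriv (fun t : ℝ => (1 / 2) * Real.log t) = fun t => (1 / 2) * t⁻¹ := by
  funext t
  rw [deriv_const_mul_field, Real.deriv_log]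

theorem w9_deriv2 (t : ℝ) :
    deriv (deriv (fun t : ℝ => (1 / 2) * Real.log t)) t = -(1 / 2) * (t ^ 2)⁻¹ := by
  rw [w9_deriv1, deriv_const_mul_field, deriv_inv]
  ring

theorem w9_cauchy (v z : ι → ℂ) : ‖∑ a, v a * conj (z a)‖ ^ 2 ≤ nsq v * nsq z := by
  have h1 : ‖∑ a, v a * conj (z a)‖ ≤ ∑ a, ‖v a‖ * ‖z a‖ := by
    refine (norm_sum_le _ _).trans (Finset.sum_le_sum fun a _ => ?_)
    rw [norm_mul, RCLike.norm_conj]
  have h2 : (∑ a, ‖v a‖ * ‖z a‖) ^ 2 ≤ (∑ a, ‖v a‖ ^ 2) * ∑ a, ‖z a‖ ^ 2 :=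
    Finset.sum_mul_sq_le_sq_mul_sq _ _ _
  calc ‖∑ a, v a * conj (z a)‖ ^ 2 ≤ (∑ a, ‖v a‖ * ‖z a‖) ^ 2 :=
        pow_le_pow_left₀ (norm_nonneg _) h1 2
    _ ≤ _ := h2

end

/-- Row W9. -/
theorem pf_W9 (h7 : T_W7) (h8 : T_W8) : T_W9 := by
  intro ι _ _
  have hsm : ContDiffOn ℝ ∞ (ell : (ι → ℂ) → ℝ) {0}ᶜ := by
    intro z hz
    have hz' : z ≠ 0 := hz
    have hp := w9_nsq_pos z hz'
    have h1 : ContDiffAt ℝ ∞ (fun w : ι → ℂ => (1 / 2) * Real.log (nsq w)) z :=
      contDiffAt_const.mul ((w9_nsq_smooth.contDiffAt).log hp.ne')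
    exact h1.contDiffWithinAt
  refine ⟨hsm, ?_⟩
  intro z hz
  have hp := w9_nsq_pos z hz
  have hpc : ((nsq z : ℝ) : ℂ) ≠ 0 := by exact_mod_cast hp.ne'
  have hφ : ContDiffAt ℝ 2 (nsq : (ι → ℂ) → ℝ) z :=
    (w9_nsq_smooth.contDiffAt).of_le w9_two_le
  have hχ : ContDiffAt ℝ 2 (fun t : ℝ => (1 / 2) * Real.log t) (nsq z) :=
    contDiffAt_const.mul (Real.contDiffAt_log.mpr hp.ne')
  obtain ⟨a1, a2, a3, -⟩ := h7 ι nsq nsq (fun t : ℝ => (1 / 2) * Real.log t) z hφ hφ hχ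
  have d1 : ((deriv (fun t : ℝ => (1 / 2) * Real.log t) (nsq z) : ℝ) : ℂ) =
      (1 / 2) * ((nsq z : ℝ) : ℂ)⁻¹ := by
    rw [w9_deriv1]
    push_cast
    ring
  have d2 : ((deriv (deriv (fun t : ℝ => (1 / 2) * Real.log t)) (nsq z) : ℝ) : ℂ) =
      -(1 / 2) * (((nsq z : ℝ) : ℂ) ^ 2)⁻¹ := by
    rw [w9_deriv2]
    push_cast
    ring
  have b1 : ∀ a, wd a (cx ell) z = conj (z a) / (2 * (nsq z : ℂ)) := by
    intro a
    have := a1 a
    rw [d1, w9_wd_nsq] at this
    rw [show (cx ell : (ι → ℂ) → ℂ) = cx fun w => (fun t : ℝ => (1 / 2) * Real.log t) (nsq w)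
      from rfl, this]
    field_simp
  have b2 : ∀ a, wdb a (cx ell) z = z a / (2 * (nsq z : ℂ)) := by
    intro a
    have := a2 a
    rw [d1, w9_wdb_nsq] at this
    rw [show (cx ell : (ι → ℂ) → ℂ) = cx fun w => (fun t : ℝ => (1 / 2) * Real.log t) (nsq w)
      from rfl, this]
    field_simp
  have b3 : ∀ a b, hessR ell z a b = (1 / 2) * ((if a = b then 1 else 0) / (nsq z : ℂ) -
      conj (z a) * z b / (nsq z : ℂ) ^ 2) := by
    intro a b
    have e : hessR ell z = hessR (fun w => (fun t : ℝ => (1 / 2) * Real.log t) (nsq w)) z := rfl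
    rw [e, a3, d1, d2]
    simp only [Matrix.add_apply, Matrix.smul_apply, smul_eq_mul]
    rw [w9_hess_nsq]
    unfold out gd gdb
    rw [w9_wd_nsq, w9_wdb_nsq]
    field_simp
    ring
  have b5 : ∀ v : ι → ℂ, ∑ a, ∑ b, v a * hessR ell z a b * conj (v b) =
      (((1 / 2) * (nsq v / nsq z - ‖∑ a, v a * conj (z a)‖ ^ 2 / nsq z ^ 2) : ℝ) : ℂ) := by
    intro v
    have c1 : ((nsq v : ℝ) : ℂ) = ∑ a, v a * conj (v a) := by
      unfold nsq
      push_cast
      refine Finset.sum_congr rfl fun i _ => ?_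
      rw [Complex.mul_conj, Complex.normSq_eq_norm_sq]
      push_cast
      rfl
    have c2 : ((‖∑ a, v a * conj (z a)‖ ^ 2 : ℝ) : ℂ) =
        (∑ a, v a * conj (z a)) * ∑ b, z b * conj (v b) := by
      rw [← Complex.normSq_eq_norm_sq, ← Complex.mul_conj, map_sum]
      congr 1
      refine Finset.sum_congr rfl fun i _ => ?_
      rw [map_mul, Complex.conj_conj, mul_comm]
    have c3 : ∀ a, ∑ b, v a * hessR ell z a b * conj (v b) =
        (1 / 2) * (v a * conj (v a) / (nsq z : ℂ) -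
          (v a * conj (z a)) * (∑ b, z b * conj (v b)) / (nsq z : ℂ) ^ 2) := by
      intro a
      have s1 : ∑ b, v a * hessR ell z a b * conj (v b) =
          ∑ b, ((if a = b then v a * conj (v b) / (nsq z : ℂ) / 2 else 0) -
            (v a * conj (z a)) / (nsq z : ℂ) ^ 2 / 2 * (z b * conj (v b))) := by
        refine Finset.sum_congr rfl fun b _ => ?_
        rw [b3]
        by_cases h : a = b
        · simp only [h, if_true]
          ring
        · simp only [h, if_false]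
          ring
      rw [s1, Finset.sum_sub_distrib, Finset.sum_ite_eq, ← Finset.mul_sum]
      simp only [Finset.mem_univ, if_true]
      ring
    rw [Finset.sum_congr rfl fun a _ => c3 a]
    rw [← Finset.mul_sum, Finset.sum_sub_distrib, ← Finset.sum_div, ← Finset.sum_div,
      ← Finset.sum_mul, ← c1, ← c2]
    push_cast
    ring
  refine ⟨b1, b2, b3, ?_, b5⟩
  have hell : ContDiffAt ℝ 2 (ell : (ι → ℂ) → ℝ) z :=
    (hsm.contDiffAt (isOpen_compl_singleton.mem_nhds hz)).of_le w9_two_le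
  refine Matrix.PosSemidef.of_dotProduct_mulVec_nonneg ((h8 ι ell z).2 hell) ?_
  intro x
  have e : star x ⬝ᵥ (hessR ell z).mulVec x =
      ∑ a, ∑ b, (conj (x a)) * hessR ell z a b * conj ((fun i => conj (x i)) b) := by
    unfold dotProduct Matrix.mulVec dotProduct
    refine Finset.sum_congr rfl fun a _ => ?_
    rw [Finset.mul_sum]
    refine Finset.sum_congr rfl fun b _ => ?_
    simp only [Pi.star_apply, Complex.conj_conj, RCLike.star_def]
    ring
  rw [e]
  have q := b5 (fun i => conj (x i))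
  rw [show (∑ a, ∑ b, (conj (x a)) * hessR ell z a b * conj ((fun i => conj (x i)) b)) = _ from q]
  have cs := w9_cauchy (fun i => conj (x i)) z
  have : (0 : ℝ) ≤ (1 / 2) * (nsq (fun i => conj (x i)) / nsq z -
      ‖∑ a, (fun i => conj (x i)) a * conj (z a)‖ ^ 2 / nsq z ^ 2) := by
    refine mul_nonneg (by norm_num) (sub_nonneg.mpr ?_)
    rw [div_le_div_iff₀ (by positivity) hp]
    calc ‖∑ a, (fun i => conj (x i)) a * conj (z a)‖ ^ 2 * nsq z
        ≤ (nsq (fun i => conj (x i)) * nsq z) * nsq z :=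
          mul_le_mul_of_nonneg_right cs hp.le
      _ = nsq (fun i => conj (x i)) * nsq z ^ 2 := by ring
  exact_mod_cast this

end Pool.Agent.H80.EQ
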