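import Pool.Agent.H71.EQ.Targets

/-!
Row FEL of the board eqr_modules: the limit for given excess, on the main region.
-/

set_option autoImplicit false

open Pool.Agent.H38.AE.Statement Pool.Agent.H38.AT MeasureTheory Filter
open scoped Topology
open Pool.Agent.H71.EQ

namespace Pool.Agent.H80.EQ

theorem nu_pos (k : ℕ) : 0 < nu k := by
  unfold nu
  positivity

theorem nu_mul (k : ℕ) : nu k * ((k : ℝ) + 1) = 1 := by
  unfold nu
  have : (k : ℝ) + 1 ≠ 0 := by positivity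
  field_simp

theorem extR_last {k : ℕ} (z : Fin k → ℝ) : extR z (Fin.last k) = -∑ i, z i := by
  unfold extR
  exact Fin.snoc_last (α := fun _ => ℝ) _ _

theorem extR_cast {k : ℕ} (z : Fin k → ℝ) (i : Fin k) : extR z i.castSucc = z i := by
  unfold extR
  exact Fin.snoc_castSucc (α := fun _ => ℝ) _ _ _

theorem ext_last {k : ℕ} (v : Fin k → ℤ) : ext v (Fin.last k) = -∑ i, v i := by
  unfold ext
  exact Fin.snoc_last (α := fun _ => ℤ) _ _

theorem ext_cast {k : ℕ} (v : Fin k → ℤ) (i : Fin k) : ext v i.castSucc = v i := by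
  unfold ext
  exact Fin.snoc_castSucc (α := fun _ => ℤ) _ _ _

theorem extR_div {k : ℕ} (v : Fin k → ℤ) (R : ℝ) (i : Fin (k + 1)) :
    extR (fun i => (v i : ℝ) / R) i = (ext v i : ℝ) / R := by
  refine Fin.lastCases ?_ (fun i => ?_) i
  · rw [extR_last, ext_last]
    push_cast
    rw [← Finset.sum_div]
    ring
  · rw [extR_cast, ext_cast]

theorem ext_inj {k : ℕ} : Function.Injective (ext : (Fin k → ℤ) → Fin (k + 1) → ℤ) := by
  intro v w h
  funext i
  have h1 := congrFun h i.castSucc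
  rwa [ext_cast, ext_cast] at h1

theorem ext_init {k : ℕ} (x : Fin (k + 1) → ℤ) (h : ∑ i, x i = 0) :
    ext (fun i => x i.castSucc) = x := by
  funext i
  refine Fin.lastCases ?_ (fun i => ?_) i
  · rw [ext_last]
    rw [Fin.sum_univ_castSucc] at h
    linarith
  · rw [ext_cast]

theorem cont_extR {k : ℕ} (i : Fin (k + 1)) : Continuous (fun z : Fin k → ℝ => extR z i) := by
  refine Fin.lastCases ?_ (fun i => ?_) i
  · simp only [extR_last]
    fun_prop
  · simp only [extR_cast]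
    fun_prop

theorem cont_PR {k : ℕ} : Continuous (PR : (Fin k → ℝ) → ℝ) := by
  unfold PR
  exact (continuous_finsetProd _ fun i _ => cont_extR i).abs

theorem PR_div {k : ℕ} (v : Fin k → ℤ) (R : ℝ) (hR : 0 < R) :
    PR (fun i => (v i : ℝ) / R) = (pr (ext v) : ℝ) / R ^ (k + 1) := by
  unfold PR pr
  simp only [extR_div]
  rw [Finset.prod_div_distrib, abs_div, Finset.prod_const, Finset.card_univ, Fintype.card_fin,
    abs_of_pos (pow_pos hR _), Nat.cast_natAbs, Int.cast_abs, Int.cast_prod]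

theorem height_le {n : ℕ} (x : Fin n → ℤ) (M : ℝ) (hM : 0 ≤ M) :
    (height x : ℝ) ≤ M ↔ ∀ i, |(x i : ℝ)| ≤ M := by
  unfold height
  constructor
  · intro h i
    have h1 : (x i).natAbs ≤ Finset.univ.sup fun i => (x i).natAbs :=
      Finset.le_sup (f := fun i => (x i).natAbs) (Finset.mem_univ i)
    have h2 : (((x i).natAbs : ℕ) : ℝ) ≤ ((Finset.univ.sup fun i => (x i).natAbs : ℕ) : ℝ) := by
      exact_mod_cast h1
    rw [Nat.cast_natAbs, Int.cast_abs] at h2
    exact h2.trans h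
  · intro h
    have h1 : (Finset.univ.sup fun i => (x i).natAbs) ≤ ⌊M⌋₊ := by
      refine Finset.sup_le fun i _ => ?_
      refine Nat.le_floor ?_
      rw [Nat.cast_natAbs, Int.cast_abs]
      exact h i
    exact (Nat.cast_le.mpr h1).trans (Nat.floor_le hM)

theorem fin_SF (k E : ℕ) (κ lam X : ℝ) : (SF k E κ lam X).Finite := by
  have h1 : (Set.Icc (fun _ : Fin (k + 1) => -⌈lam * X ^ nu k⌉)
      (fun _ : Fin (k + 1) => ⌈lam * X ^ nu k⌉)).Finite := Set.finite_Icc _ _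
  refine h1.subset fun x hx => ?_
  have h2 : ((height x : ℕ) : ℝ) ≤ lam * X ^ nu k := hx.2.2.2.2
  have h3 : 0 ≤ lam * X ^ nu k := (Nat.cast_nonneg _).trans h2
  have h4 := (height_le x _ h3).mp h2
  refine ⟨fun i => ?_, fun i => ?_⟩
  · have h5 : -(x i : ℝ) ≤ lam * X ^ nu k := (neg_le_abs _).trans (h4 i)
    have h6 : ((-(x i) : ℤ) : ℝ) ≤ ((⌈lam * X ^ nu k⌉ : ℤ) : ℝ) := by
      push_cast
      exact h5.trans (Int.le_ceil _)
    have h7 : -(x i) ≤ ⌈lam * X ^ nu k⌉ := by exact_mod_cast h6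
    change -⌈lam * X ^ nu k⌉ ≤ x i
    linarith
  · have h5 : (x i : ℝ) ≤ lam * X ^ nu k := (le_abs_self _).trans (h4 i)
    have h6 : (x i : ℝ) ≤ ((⌈lam * X ^ nu k⌉ : ℤ) : ℝ) := h5.trans (Int.le_ceil _)
    exact_mod_cast h6

theorem R_pow (k : ℕ) (Y : ℝ) (hY : 0 < Y) : (Y ^ nu k) ^ (k + 1) = Y := by
  rw [← Real.rpow_natCast, ← Real.rpow_mul hY.le]
  push_cast
  rw [nu_mul, Real.rpow_one]

theorem PR_rd {k E : ℕ} (hE : 1 ≤ E) (hEXC : T_EXC) (X : ℝ) (hX : 0 < X) (v : Fin k → ℤ)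
    (h0 : ∀ i, ext v i ≠ 0) (hex : exc (ext v) = E) :
    PR (fun i => (v i : ℝ) / (X * E) ^ nu k) = (rd (ext v) : ℝ) / X := by
  have hE0 : (0 : ℝ) < E := by exact_mod_cast hE
  have hXE : 0 < X * E := mul_pos hX hE0
  obtain ⟨-, -, -, h4, -⟩ := hEXC (k + 1) (ext v) h0
  rw [PR_div v _ (Real.rpow_pos_of_pos hXE _), R_pow k _ hXE, h4, hex]
  push_cast
  field_simp

theorem mem_iff {k E : ℕ} (hE : 1 ≤ E) (hEXC : T_EXC) (κ lam X : ℝ) (hl : 1 ≤ lam) (hX : 0 < X)
    (v : Fin k → ℤ) : ext v ∈ SF k E κ lam X ↔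
      v ∈ Fix k E ∧ (fun i => (v i : ℝ) / (X * E) ^ nu k) ∈ Reg k E κ lam := by
  have hE0 : (0 : ℝ) < E := by exact_mod_cast hE
  have hXE : 0 < X * E := mul_pos hX hE0
  have hR : 0 < (X * E) ^ nu k := Real.rpow_pos_of_pos hXE _
  have key : ∀ i, (|extR (fun i => (v i : ℝ) / (X * E) ^ nu k) i| ≤ lam * (E : ℝ) ^ (-nu k) ↔
      |(ext v i : ℝ)| ≤ lam * X ^ nu k) := by
    intro i
    rw [extR_div, abs_div, abs_of_pos hR, div_le_iff₀ hR]
    have h1 : lam * (E : ℝ) ^ (-nu k) * (X * E) ^ nu k = lam * X ^ nu k := by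
      rw [Real.mul_rpow hX.le hE0.le, Real.rpow_neg hE0.le]
      have : (E : ℝ) ^ nu k ≠ 0 := (Real.rpow_pos_of_pos hE0 _).ne'
      field_simp
    rw [h1]
  have hM : 0 ≤ lam * X ^ nu k := mul_nonneg (by linarith) (Real.rpow_pos_of_pos hX _).le
  constructor
  · rintro ⟨h1, h2, h3, h4, h5⟩
    have h6 := PR_rd hE hEXC X hX v h1.1 h2
    refine ⟨⟨h1, h2⟩, ?_, ?_, fun i => (key i).mpr ((height_le _ _ hM).mp h5 i)⟩
    · rw [h6, lt_div_iff₀ hX]
      exact h3
    · rw [h6, div_le_one hX]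
      exact h4
  · rintro ⟨⟨h1, h2⟩, h3, h4, h5⟩
    have h6 := PR_rd hE hEXC X hX v h1.1 h2
    rw [h6, lt_div_iff₀ hX] at h3
    rw [h6, div_le_one hX] at h4
    exact ⟨h1, h2, h3, h4, (height_le _ _ hM).mpr fun i => (key i).mp (h5 i)⟩

theorem nrm_eq {k E : ℕ} (hE : 1 ≤ E) (hEXC : T_EXC) (X : ℝ) (hX : 0 < X) (v : Fin k → ℤ)
    (h0 : ∀ i, ext v i ≠ 0) (hex : exc (ext v) = E) :
    arg E (fun i => (v i : ℝ) / (X * E) ^ nu k) = nrm (ext v) := by
  have hE0 : (0 : ℝ) < E := by exact_mod_cast hE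
  have hXE : 0 < X * E := mul_pos hX hE0
  have hrd : (0 : ℝ) < rd (ext v) := by exact_mod_cast (hEXC (k + 1) (ext v) h0).2.1
  funext i
  unfold arg nrm
  rw [PR_rd hE hEXC X hX v h0 hex, extR_div, Real.div_rpow hrd.le hX.le, Real.rpow_neg hrd.le,
    Real.rpow_neg hX.le, Real.mul_rpow hX.le hE0.le]
  have h1 : (E : ℝ) ^ nu k ≠ 0 := (Real.rpow_pos_of_pos hE0 _).ne'
  have h2 : X ^ nu k ≠ 0 := (Real.rpow_pos_of_pos hX _).ne'
  have h3 : (rd (ext v) : ℝ) ^ nu k ≠ 0 := (Real.rpow_pos_of_pos hrd _).ne'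
  field_simp

theorem sum_eq {k E : ℕ} (hE : 1 ≤ E) (hEXC : T_EXC) (κ lam X : ℝ) (hl : 1 ≤ lam) (hX : 0 < X)
    (f : (Fin (k + 1) → ℝ) → ℝ) :
    ∑' v : Fin k → ℤ, (Fix k E).indicator (fun v => (Reg k E κ lam).indicator
      (fun z => f (arg E z)) (fun i => (v i : ℝ) / (X * E) ^ nu k)) v =
    ∑ᶠ x ∈ SF k E κ lam X, f (nrm x) := by
  classical
  have h1 : ∀ v : Fin k → ℤ, (Fix k E).indicator (fun v => (Reg k E κ lam).indicator
      (fun z => f (arg E z)) (fun i => (v i : ℝ) / (X * E) ^ nu k)) v =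
      (ext ⁻¹' SF k E κ lam X).indicator (fun v => f (nrm (ext v))) v := by
    intro v
    have h2 := mem_iff hE hEXC κ lam X hl hX v
    by_cases hv : ext v ∈ SF k E κ lam X
    · obtain ⟨h3, h4⟩ := h2.mp hv
      rw [Set.indicator_of_mem h3, Set.indicator_of_mem h4,
        Set.indicator_of_mem (show v ∈ ext ⁻¹' SF k E κ lam X from hv),
        nrm_eq hE hEXC X hX v h3.1.1 h3.2]
    · rw [Set.indicator_of_notMem (show v ∉ ext ⁻¹' SF k E κ lam X from hv)]
      by_cases h3 : v ∈ Fix k E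
      · rw [Set.indicator_of_mem h3]
        refine Set.indicator_of_notMem (fun h4 => hv (h2.mpr ⟨h3, h4⟩)) _
      · rw [Set.indicator_of_notMem h3]
  rw [tsum_congr h1]
  have hfin : (ext ⁻¹' SF k E κ lam X).Finite :=
    (fin_SF k E κ lam X).preimage ext_inj.injOn
  rw [tsum_eq_finsum (hfin.subset Set.support_indicator_subset), ← finsum_mem_def]
  have h2 : ext '' (ext ⁻¹' SF k E κ lam X) = SF k E κ lam X := by
    refine Set.image_preimage_eq_of_subset fun x hx => ?_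
    exact ⟨_, ext_init x hx.1.2.2⟩
  conv_rhs => rw [← h2]
  rw [finsum_mem_image ext_inj.injOn]

theorem meas_Reg (k E : ℕ) (κ lam : ℝ) : MeasurableSet (Reg k E κ lam) := by
  have h1 : Reg k E κ lam = {z | κ < PR z} ∩ ({z | PR z ≤ 1} ∩
      ⋂ i, {z : Fin k → ℝ | |extR z i| ≤ lam * (E : ℝ) ^ (-nu k)}) := by
    ext z
    simp only [Reg, Set.mem_ofPred_eq, Set.mem_inter_iff, Set.mem_iInter]
  rw [h1]
  refine (measurableSet_lt measurable_const cont_PR.measurable).inter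
    ((measurableSet_le cont_PR.measurable measurable_const).inter
      (MeasurableSet.iInter fun i => measurableSet_le (cont_extR i).abs.measurable
        measurable_const))

theorem cont_arg {k : ℕ} (E : ℕ) (z : Fin k → ℝ) (hz : PR z ≠ 0) :
    ContinuousAt (fun z : Fin k → ℝ => arg E z) z := by
  rw [continuousAt_pi]
  intro i
  unfold arg
  have h1 : ContinuousAt (fun z : Fin k → ℝ => PR z ^ (-nu k)) z :=
    cont_PR.continuousAt.rpow_const (Or.inl hz)
  exact (continuousAt_const.mul h1).mul (cont_extR i).continuousAt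

theorem ae_cont (hNUL : T_NUL) (k E : ℕ) (hk : 1 ≤ k) (κ lam : ℝ) (hκ : 0 < κ)
    (f : (Fin (k + 1) → ℝ) → ℝ) (hf : Continuous f) :
    ∀ᵐ z : Fin k → ℝ, ContinuousAt ((Reg k E κ lam).indicator fun z => f (arg E z)) z := by
  have n1 := (hNUL k hk κ).1
  have n2 := (hNUL k hk 1).1
  have n3 := (hNUL k hk (lam * (E : ℝ) ^ (-nu k))).2
  filter_upwards [compl_mem_ae_iff.mpr n1, compl_mem_ae_iff.mpr n2, compl_mem_ae_iff.mpr n3] with
    z h1 h2 h3
  have h1' : PR z ≠ κ := h1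
  have h2' : PR z ≠ 1 := h2
  have h3' : ∀ i, |extR z i| ≠ lam * (E : ℝ) ^ (-nu k) := by
    intro i hi
    exact h3 ⟨i, hi⟩
  have zero : ∀ U : Set (Fin k → ℝ), U ∈ 𝓝 z → (∀ w ∈ U, w ∉ Reg k E κ lam) →
      ContinuousAt ((Reg k E κ lam).indicator fun z => f (arg E z)) z := by
    intro U hU hw
    have h4 : (fun _ => (0 : ℝ)) =ᶠ[𝓝 z] ((Reg k E κ lam).indicator fun z => f (arg E z)) := by
      filter_upwards [hU] with w hw'
      exact (Set.indicator_of_notMem (hw w hw') _).symm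
    exact continuousAt_const.congr h4
  by_cases c1 : PR z < κ
  · exact zero {w | PR w < κ} (cont_PR.continuousAt.eventually_lt continuousAt_const c1)
      fun w hw hr => absurd hr.1 (not_lt.mpr (le_of_lt hw))
  by_cases c2 : 1 < PR z
  · exact zero {w | 1 < PR w} (continuousAt_const.eventually_lt cont_PR.continuousAt c2)
      fun w hw hr => absurd hr.2.1 (not_le.mpr hw)
  by_cases c3 : ∃ i, lam * (E : ℝ) ^ (-nu k) < |extR z i|
  · obtain ⟨i, hi⟩ := c3
    exact zero {w | lam * (E : ℝ) ^ (-nu k) < |extR w i|}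
      (continuousAt_const.eventually_lt (cont_extR i).abs.continuousAt hi)
      fun w hw hr => absurd (hr.2.2 i) (not_le.mpr hw)
  have d1 : κ < PR z := lt_of_le_of_ne (not_lt.mp c1) (Ne.symm h1')
  have d2 : PR z < 1 := lt_of_le_of_ne (not_lt.mp c2) h2'
  have d3 : ∀ i, |extR z i| < lam * (E : ℝ) ^ (-nu k) := by
    intro i
    exact lt_of_le_of_ne (not_lt.mp fun h => c3 ⟨i, h⟩) (h3' i)
  have e1 : ∀ᶠ w in 𝓝 z, κ < PR w := continuousAt_const.eventually_lt cont_PR.continuousAt d1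
  have e2 : ∀ᶠ w in 𝓝 z, PR w < 1 := cont_PR.continuousAt.eventually_lt continuousAt_const d2
  have e3 : ∀ᶠ w in 𝓝 z, ∀ i, |extR w i| < lam * (E : ℝ) ^ (-nu k) := by
    rw [eventually_all]
    intro i
    exact (cont_extR i).abs.continuousAt.eventually_lt continuousAt_const (d3 i)
  have h4 : (fun w => f (arg E w)) =ᶠ[𝓝 z]
      ((Reg k E κ lam).indicator fun z => f (arg E z)) := by
    filter_upwards [e1, e2, e3] with w f1 f2 f3
    have f4 : w ∈ Reg k E κ lam := ⟨f1, f2.le, fun i => (f3 i).le⟩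
    exact (Set.indicator_of_mem f4 (fun z => f (arg E z))).symm
  refine ContinuousAt.congr ?_ h4
  have h5 : PR z ≠ 0 := by linarith
  exact ContinuousAt.comp (g := f) hf.continuousAt (cont_arg E z h5)

/-- **the limit for given excess, on the main region** -/
theorem pf_FEL (hFXG : T_FXG) (hNUL : T_NUL) (hEXC : T_EXC) : T_FEL := by
  intro k E κ lam hk hE hκ0 hκ1 hlam f hf hB
  obtain ⟨B, hB⟩ := hB
  refine ⟨fin_SF k E κ lam, ?_⟩
  have hE0 : (0 : ℝ) < E := by exact_mod_cast hE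
  have hB0 : 0 ≤ B := (abs_nonneg _).trans (hB 0)
  have h1 := hFXG k E hk hE ((Reg k E κ lam).indicator fun z => f (arg E z)) B
    (lam * (E : ℝ) ^ (-nu k))
    (by
      intro z
      by_cases hz : z ∈ Reg k E κ lam
      · rw [Set.indicator_of_mem hz]
        exact hB _
      · rw [Set.indicator_of_notMem hz, abs_zero]
        exact hB0)
    (by
      intro z hz i
      have hz' : z ∈ Reg k E κ lam := by
        by_contra h
        exact hz (Set.indicator_of_notMem h _)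
      refine ⟨fun h0 => ?_, hz'.2.2 i⟩
      have h2 : PR z = 0 := by
        unfold PR
        rw [Finset.prod_eq_zero (Finset.mem_univ i) h0, abs_zero]
      have h3 := hz'.1
      rw [h2] at h3
      linarith)
    (ae_cont hNUL k E (by omega) κ lam hκ0 f hf)
  have h2 : Tendsto (fun X : ℝ => (X * E) ^ nu k) atTop atTop :=
    (tendsto_rpow_atTop (nu_pos k)).comp (tendsto_id.atTop_mul_const hE0)
  have h3 := (h1.comp h2).const_mul ((E : ℝ) ^ (1 - nu k))
  have h4 : (E : ℝ) ^ (1 - nu k) * (wt (k + 1) E *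
      ∫ z, (Reg k E κ lam).indicator (fun z => f (arg E z)) z) =
      wt (k + 1) E * (E : ℝ) ^ (1 - nu k) * ∫ z in Reg k E κ lam, f (arg E z) := by
    rw [integral_indicator (meas_Reg k E κ lam)]
    ring
  rw [h4] at h3
  refine h3.congr' ?_
  filter_upwards [eventually_gt_atTop (0 : ℝ)] with X hX
  have hXE : 0 < X * E := mul_pos hX hE0
  have h5 : ((X * E) ^ nu k) ^ k = X ^ (1 - nu k) * (E : ℝ) ^ (1 - nu k) := by
    rw [← Real.rpow_natCast, ← Real.rpow_mul hXE.le]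
    have h6 : nu k * (k : ℝ) = 1 - nu k := by
      have := nu_mul k
      linarith
    rw [h6, Real.mul_rpow hX.le hE0.le]
  change (E : ℝ) ^ (1 - nu k) * ((((X * E) ^ nu k) ^ k)⁻¹ * ∑' v : Fin k → ℤ,
    (Fix k E).indicator (fun v => (Reg k E κ lam).indicator
      (fun z => f (arg E z)) (fun i => (v i : ℝ) / (X * E) ^ nu k)) v) = _
  rw [sum_eq hE hEXC κ lam X hlam hX f, h5, Real.rpow_neg hX.le]
  have h7 : (E : ℝ) ^ (1 - nu k) ≠ 0 := (Real.rpow_pos_of_pos hE0 _).ne'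
  have h8 : X ^ (1 - nu k) ≠ 0 := (Real.rpow_pos_of_pos hX _).ne'
  field_simp

end Pool.Agent.H80.EQ
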