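import Pool.Agent.H92.EQ.TL

/-!
Board eqd_modules, row IC: algebraic properties of the mean.
-/

namespace Pool.Agent.H80.EQ

open scoped BigOperators ComplexConjugate ContDiff ComplexOrder
open MeasureTheory
open Pool.Agent.H92.EQ

/-- Row IC. -/
theorem pf_IC (hD5 : T_D5) (hD13 : T_D13) (hIA : T_IA) (hTH : T_TH) : T_IC := by
  intro N p S hp hS y hy
  have hae : ∀ᵐ X : Fin N → Fin N → ℂ, ProjForm (pull (lin (Matrix.of X)) S) := by
    filter_upwards [(hTH N ⟨p, hp⟩ ⟨p, hp⟩).1] with X hX
    exact hD5 N p 1 (lin (Matrix.of X)) S le_rfl ((hD13 N (Matrix.of X) 1 0).2.2.1 hX) hS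
  obtain ⟨C, hC⟩ := (hIA N p S hp hS).2
  have hint := fun I J => (hC y hy I J).1
  refine ⟨?_, ?_, ?_, ?_⟩
  · intro I J j
    have e : ∀ a, y a * av S y (Function.update I j a) J =
        ∫ X : Fin N → Fin N → ℂ, y a * ((gss X : ℂ) *
          pull (lin (Matrix.of X)) S y (Function.update I j a) J) := by
      intro a
      unfold av
      rw [integral_const_mul]
    rw [Finset.sum_congr rfl fun a _ => e a, ← integral_finsetSum _ fun a _ =>
      (hint (Function.update I j a) J).const_mul (y a)]
    refine integral_eq_zero_of_ae ?_
    filter_upwards [hae] with X hX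
    have h := hX.basicL y hy I J j
    have h2 : ∑ a, y a * ((gss X : ℂ) *
        pull (lin (Matrix.of X)) S y (Function.update I j a) J) =
        (gss X : ℂ) * ∑ a, y a * pull (lin (Matrix.of X)) S y (Function.update I j a) J := by
      rw [Finset.mul_sum]
      refine Finset.sum_congr rfl fun a _ => ?_
      ring
    rw [h2, h, mul_zero]
    rfl
  · intro I J j
    have e : ∀ a, conj (y a) * av S y I (Function.update J j a) =
        ∫ X : Fin N → Fin N → ℂ, conj (y a) * ((gss X : ℂ) *
          pull (lin (Matrix.of X)) S y I (Function.update J j a)) := by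
      intro a
      unfold av
      rw [integral_const_mul]
    rw [Finset.sum_congr rfl fun a _ => e a, ← integral_finsetSum _ fun a _ =>
      (hint I (Function.update J j a)).const_mul (conj (y a))]
    refine integral_eq_zero_of_ae ?_
    filter_upwards [hae] with X hX
    have h := hX.basicR y hy I J j
    have h2 : ∑ a, conj (y a) * ((gss X : ℂ) *
        pull (lin (Matrix.of X)) S y I (Function.update J j a)) =
        (gss X : ℂ) * ∑ a, conj (y a) *
          pull (lin (Matrix.of X)) S y I (Function.update J j a) := by
      rw [Finset.mul_sum]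
      refine Finset.sum_congr rfl fun a _ => ?_
      ring
    rw [h2, h, mul_zero]
    rfl
  · intro π I J
    constructor
    · unfold av
      rw [← integral_const_mul]
      refine integral_congr_ae ?_
      filter_upwards [hae] with X hX
      rw [hX.cp.altL y hy π I J]
      ring
    · unfold av
      rw [← integral_const_mul]
      refine integral_congr_ae ?_
      filter_upwards [hae] with X hX
      rw [hX.cp.altR y hy π I J]
      ring
  · intro l I J hl
    unfold av
    rw [← integral_const_mul]
    refine integral_congr_ae ?_
    filter_upwards [hae] with X hX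
    rw [hX.homog l y hl hy I J]
    ring

end Pool.Agent.H80.EQ
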