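import Pool.Agent.H92.EQ.TL

/-!
Board eqd_modules, row LC: domination of rank one matrices.
-/

namespace Pool.Agent.H80.EQ

open scoped BigOperators ComplexConjugate ContDiff ComplexOrder
open MeasureTheory
open Pool.Agent.H92.EQ

noncomputable section

variable {ι : Type} [Fintype ι] [DecidableEq ι]

/-- The quadratic form. -/
def lcf (M : Matrix ι ι ℂ) (v : ι → ℂ) : ℂ := ∑ a, ∑ b, v a * M a b * conj (v b)

theorem lcf_add (M M' : Matrix ι ι ℂ) (v : ι → ℂ) : lcf (M + M') v = lcf M v + lcf M' v := by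
  unfold lcf
  rw [← Finset.sum_add_distrib]
  refine Finset.sum_congr rfl fun a _ => ?_
  rw [← Finset.sum_add_distrib]
  refine Finset.sum_congr rfl fun b _ => ?_
  rw [Matrix.add_apply]
  ring

theorem lcf_smul (c : ℂ) (M : Matrix ι ι ℂ) (v : ι → ℂ) : lcf (c • M) v = c * lcf M v := by
  unfold lcf
  rw [Finset.mul_sum]
  refine Finset.sum_congr rfl fun a _ => ?_
  rw [Finset.mul_sum]
  refine Finset.sum_congr rfl fun b _ => ?_
  rw [Matrix.smul_apply, smul_eq_mul]
  ring

theorem lcf_sub (M M' : Matrix ι ι ℂ) (v : ι → ℂ) : lcf (M - M') v = lcf M v - lcf M' v := by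
  have h : M - M' = M + (-1 : ℂ) • M' := by
    rw [neg_one_smul]
    exact sub_eq_add_neg _ _
  rw [h, lcf_add, lcf_smul]
  ring

theorem lcf_ct (M : Matrix ι ι ℂ) (v : ι → ℂ) : lcf M.conjTranspose v = conj (lcf M v) := by
  unfold lcf
  rw [map_sum, Finset.sum_comm]
  refine Finset.sum_congr rfl fun a _ => ?_
  rw [map_sum]
  refine Finset.sum_congr rfl fun b _ => ?_
  rw [map_mul, map_mul, Complex.conj_conj, Matrix.conjTranspose_apply, RCLike.star_def]
  ring

theorem lc_psd {M : Matrix ι ι ℂ} (h1 : M.IsHermitian) (h2 : ∀ v, 0 ≤ lcf M v) :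
    M.PosSemidef := by
  refine Matrix.PosSemidef.of_dotProduct_mulVec_nonneg h1 ?_
  intro x
  have e : star x ⬝ᵥ M.mulVec x = lcf M (fun i => conj (x i)) := by
    unfold dotProduct Matrix.mulVec dotProduct lcf
    refine Finset.sum_congr rfl fun a _ => ?_
    rw [Finset.mul_sum]
    refine Finset.sum_congr rfl fun b _ => ?_
    simp only [Pi.star_apply, Complex.conj_conj, RCLike.star_def]
    ring
  rw [e]
  exact h2 _

/-- Domination from the quadratic forms. -/
theorem lc_dom {H B : Matrix ι ι ℂ} (hB : B.IsHermitian)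
    (h : ∀ v, ‖lcf H v‖ ≤ (lcf B v).re) : Dom H B := by
  have hBr : ∀ v, lcf B v = (((lcf B v).re : ℝ) : ℂ) := by
    intro v
    have h1 := lcf_ct B v
    rw [hB.eq] at h1
    exact (Complex.conj_eq_iff_real.mp h1.symm).elim fun r hr => by rw [hr, Complex.ofReal_re]
  have hR : (((1 : ℂ) / 2) • (H + H.conjTranspose)).IsHermitian := by
    unfold Matrix.IsHermitian
    rw [Matrix.conjTranspose_smul, Matrix.conjTranspose_add, Matrix.conjTranspose_conjTranspose,
      add_comm]
    congr 1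
    simp
  have hI : ((-Complex.I / 2) • (H - H.conjTranspose)).IsHermitian := by
    unfold Matrix.IsHermitian
    rw [Matrix.conjTranspose_smul, Matrix.conjTranspose_sub, Matrix.conjTranspose_conjTranspose]
    have h1 : star (-Complex.I / 2) = Complex.I / 2 := by
      simp [RCLike.star_def]
    rw [h1, ← neg_sub, smul_neg, ← neg_smul]
    congr 1
    ring
  have fR : ∀ v, lcf (((1 : ℂ) / 2) • (H + H.conjTranspose)) v = (((lcf H v).re : ℝ) : ℂ) := by
    intro v
    rw [lcf_smul, lcf_add, lcf_ct, Complex.add_conj]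
    push_cast
    ring
  have fI : ∀ v, lcf ((-Complex.I / 2) • (H - H.conjTranspose)) v =
      (((lcf H v).im : ℝ) : ℂ) := by
    intro v
    rw [lcf_smul, lcf_sub, lcf_ct, Complex.sub_conj]
    push_cast
    linear_combination (-((lcf H v).im : ℂ)) * Complex.I_mul_I
  refine ⟨lc_psd (hB.sub hR) ?_, lc_psd (hB.add hR) ?_, lc_psd (hB.sub hI) ?_,
    lc_psd (hB.add hI) ?_⟩
  · intro v
    rw [lcf_sub, fR, hBr v, ← Complex.ofReal_sub]
    have h1 := Complex.abs_re_le_norm (lcf H v)
    have h2 := h v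
    exact_mod_cast (by linarith [(abs_le.mp (h1.trans h2)).2] :
      (0 : ℝ) ≤ (lcf B v).re - (lcf H v).re)
  · intro v
    rw [lcf_add, fR, hBr v, ← Complex.ofReal_add]
    have h1 := Complex.abs_re_le_norm (lcf H v)
    have h2 := h v
    exact_mod_cast (by linarith [(abs_le.mp (h1.trans h2)).1] :
      (0 : ℝ) ≤ (lcf B v).re + (lcf H v).re)
  · intro v
    rw [lcf_sub, fI, hBr v, ← Complex.ofReal_sub]
    have h1 := Complex.abs_im_le_norm (lcf H v)
    have h2 := h v
    exact_mod_cast (by linarith [(abs_le.mp (h1.trans h2)).2] :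
      (0 : ℝ) ≤ (lcf B v).re - (lcf H v).im)
  · intro v
    rw [lcf_add, fI, hBr v, ← Complex.ofReal_add]
    have h1 := Complex.abs_im_le_norm (lcf H v)
    have h2 := h v
    exact_mod_cast (by linarith [(abs_le.mp (h1.trans h2)).1] :
      (0 : ℝ) ≤ (lcf B v).re + (lcf H v).im)

theorem lc_nsq (v : ι → ℂ) : ((nsq v : ℝ) : ℂ) = ∑ a, v a * conj (v a) := by
  unfold nsq
  push_cast
  refine Finset.sum_congr rfl fun i _ => ?_
  rw [Complex.mul_conj, Complex.normSq_eq_norm_sq]
  push_cast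
  rfl

theorem lc_nsq_nonneg (v : ι → ℂ) : 0 ≤ nsq v := by
  unfold nsq
  exact Finset.sum_nonneg fun i _ => by positivity

theorem lc_nsq_pos (z : ι → ℂ) (hz : z ≠ 0) : 0 < nsq z := by
  obtain ⟨i, hi⟩ : ∃ i, z i ≠ 0 := by
    by_contra h
    push Not at h
    exact hz (funext h)
  unfold nsq
  exact lt_of_lt_of_le (pow_pos (norm_pos_iff.mpr hi) 2)
    (Finset.single_le_sum (f := fun i => ‖z i‖ ^ 2) (fun j _ => by positivity)
      (Finset.mem_univ i))

/-- The orthogonal component. -/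
theorem lc_orth (v x : ι → ℂ) (hx : x ≠ 0) :
    nsq (fun i => v i - (∑ a, v a * conj (x a)) / (nsq x : ℂ) * x i) =
      nsq v - ‖∑ a, v a * conj (x a)‖ ^ 2 / nsq x := by
  have hp := lc_nsq_pos x hx
  have hpc : ((nsq x : ℝ) : ℂ) ≠ 0 := by exact_mod_cast hp.ne'
  have key : ((nsq (fun i => v i - (∑ a, v a * conj (x a)) / (nsq x : ℂ) * x i) : ℝ) : ℂ) =
      ((nsq v - ‖∑ a, v a * conj (x a)‖ ^ 2 / nsq x : ℝ) : ℂ) := by
    rw [lc_nsq]
    push_cast
    have hs : ((‖∑ a, v a * conj (x a)‖ : ℝ) : ℂ) ^ 2 =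
        (∑ a, v a * conj (x a)) * conj (∑ a, v a * conj (x a)) := by
      rw [Complex.mul_conj, Complex.normSq_eq_norm_sq]
      push_cast
      rfl
    rw [hs]
    set s := ∑ a, v a * conj (x a) with hsdef
    have hs' : conj s = ∑ a, x a * conj (v a) := by
      rw [hsdef, map_sum]
      refine Finset.sum_congr rfl fun a _ => ?_
      rw [map_mul, Complex.conj_conj]
      ring
    have e : ∀ a, (v a - s / (nsq x : ℂ) * x a) * conj (v a - s / (nsq x : ℂ) * x a) =
        v a * conj (v a) - conj s / (nsq x : ℂ) * (v a * conj (x a)) -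
          s / (nsq x : ℂ) * (x a * conj (v a)) +
          s * conj s / (nsq x : ℂ) ^ 2 * (x a * conj (x a)) := by
      intro a
      rw [map_sub, map_mul, map_div₀, Complex.conj_ofReal]
      ring
    rw [Finset.sum_congr rfl fun a _ => e a, Finset.sum_add_distrib, Finset.sum_sub_distrib,
      Finset.sum_sub_distrib, ← Finset.mul_sum, ← Finset.mul_sum, ← Finset.mul_sum, ← hsdef,
      ← hs', ← lc_nsq, ← lc_nsq]
    field_simp
    ring
  exact_mod_cast key

theorem lc_cauchy (v a : ι → ℂ) : ‖∑ i, v i * a i‖ ≤ Real.sqrt (nsq v) * nrm a := by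
  have h1 : ‖∑ i, v i * a i‖ ≤ ∑ i, ‖v i‖ * ‖a i‖ := by
    refine (norm_sum_le _ _).trans (Finset.sum_le_sum fun i _ => ?_)
    rw [norm_mul]
  have h2 : (∑ i, ‖v i‖ * ‖a i‖) ^ 2 ≤ (∑ i, ‖v i‖ ^ 2) * ∑ i, ‖a i‖ ^ 2 :=
    Finset.sum_mul_sq_le_sq_mul_sq _ _ _
  unfold nrm nsq
  rw [← Real.sqrt_mul (Finset.sum_nonneg fun i _ => by positivity)]
  exact h1.trans (Real.le_sqrt_of_sq_le h2)

end

/-- Row LC. -/
theorem pf_LC (hW9 : T_W9) : T_LC := by
  intro N x a b hx hxa hxb
  obtain ⟨-, hW⟩ := hW9 (Fin N)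
  obtain ⟨-, -, -, hpsd, hform⟩ := hW x hx
  have hp := lc_nsq_pos x hx
  have hpc : ((nsq x : ℝ) : ℂ) ≠ 0 := by exact_mod_cast hp.ne'
  refine ⟨?_, ?_⟩
  · have hK : (0 : ℂ) ≤ ((2 * nsq x * nrm a * nrm b : ℝ) : ℂ) := by
      have : 0 ≤ 2 * nsq x * nrm a * nrm b := by
        have h1 : 0 ≤ nrm a := Real.sqrt_nonneg _
        have h2 : 0 ≤ nrm b := Real.sqrt_nonneg _
        positivity
      exact_mod_cast this
    refine lc_dom (hpsd.smul hK).isHermitian ?_
    intro v
    set s := ∑ i, v i * conj (x i) with hs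
    set v0 : Fin N → ℂ := fun i => v i - s / (nsq x : ℂ) * x i with hv0
    have f1 : lcf (out a b) v = (∑ i, v0 i * a i) * ∑ j, (fun j => conj (v0 j)) j * b j := by
      have g1 : ∑ i, v0 i * a i = ∑ i, v i * a i := by
        have : ∀ i, v0 i * a i = v i * a i - s / (nsq x : ℂ) * (x i * a i) := fun i => by
          rw [hv0]
          ring
        rw [Finset.sum_congr rfl fun i _ => this i, Finset.sum_sub_distrib, ← Finset.mul_sum, hxa,
          mul_zero, sub_zero]
      have g2 : ∑ j, (fun j => conj (v0 j)) j * b j = ∑ j, conj (v j) * b j := by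
        have : ∀ j, (fun j => conj (v0 j)) j * b j =
            conj (v j) * b j - conj (s / (nsq x : ℂ)) * (conj (x j) * b j) := fun j => by
          simp only [hv0, map_sub, map_mul]
          ring
        rw [Finset.sum_congr rfl fun i _ => this i, Finset.sum_sub_distrib, ← Finset.mul_sum, hxb,
          mul_zero, sub_zero]
      rw [g1, g2, Finset.sum_mul]
      unfold lcf out
      refine Finset.sum_congr rfl fun i _ => ?_
      rw [Finset.mul_sum]
      refine Finset.sum_congr rfl fun j _ => ?_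
      ring
    have hn : nsq (fun j => conj (v0 j)) = nsq v0 := by
      unfold nsq
      refine Finset.sum_congr rfl fun j _ => ?_
      rw [RCLike.norm_conj]
    have f2 : ‖lcf (out a b) v‖ ≤ nsq v0 * nrm a * nrm b := by
      rw [f1, norm_mul]
      have c1 := lc_cauchy v0 a
      have c2 := lc_cauchy (fun j => conj (v0 j)) b
      rw [hn] at c2
      calc ‖∑ i, v0 i * a i‖ * ‖∑ j, (fun j => conj (v0 j)) j * b j‖ ≤
          (Real.sqrt (nsq v0) * nrm a) * (Real.sqrt (nsq v0) * nrm b) :=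
            mul_le_mul c1 c2 (norm_nonneg _) ((norm_nonneg _).trans c1)
        _ = (Real.sqrt (nsq v0) * Real.sqrt (nsq v0)) * nrm a * nrm b := by ring
        _ = nsq v0 * nrm a * nrm b := by rw [Real.mul_self_sqrt (lc_nsq_nonneg _)]
    refine f2.trans (le_of_eq ?_)
    rw [lcf_smul]
    have f3 : lcf (hessR ell x) v = _ := hform v
    rw [f3, Complex.re_ofReal_mul, Complex.ofReal_re]
    have f4 : nsq v0 = nsq v - ‖s‖ ^ 2 / nsq x := lc_orth v x hx
    rw [f4, ← hs]
    field_simp
  · intro u hu C hC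
    have hH := (hu.psh x hx)
    have hHc : (hessR u x).conjTranspose = hessR u x := hH.isHermitian
    have hB : ((C : ℂ) • hessR ell x).PosSemidef := by
      have := hC.add hH
      rwa [sub_add_cancel] at this
    have e1 : ((1 : ℂ) / 2) • (hessR u x + (hessR u x).conjTranspose) = hessR u x := by
      rw [hHc, ← two_smul ℂ, smul_smul]
      norm_num
    have e2 : (-Complex.I / 2) • (hessR u x - (hessR u x).conjTranspose) = 0 := by
      rw [hHc, sub_self, smul_zero]
    refine ⟨?_, ?_, ?_, ?_⟩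
    · rw [e1]
      exact hC
    · rw [e1]
      exact hB.add hH
    · rw [e2, sub_zero]
      exact hB
    · rw [e2, add_zero]
      exact hB

end Pool.Agent.H80.EQ
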