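import Pool.Agent.H92.EQ.TF2

/-!
Board eqd_modules, row P3: positivity and bounds of the pairing.
-/

namespace Pool.Agent.H80.EQ

open scoped BigOperators ComplexConjugate ContDiff ComplexOrder
open MeasureTheory
open Pool.Agent.H92.EQ

theorem p3_rad {ι : Type} [Fintype ι] [DecidableEq ι] (z : ι → ℂ) :
    (Rad z).PosSemidef := by
  have h : Rad z = Matrix.vecMulVec (fun a => conj (z a) / (2 * (nsq z : ℂ)))
      (star (fun a => conj (z a) / (2 * (nsq z : ℂ)))) := by
    ext a b
    unfold Rad
    rw [Matrix.vecMulVec_apply, Pi.star_apply, RCLike.star_def, map_div₀, map_mul,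
      Complex.conj_conj, Complex.conj_ofReal, Complex.conj_ofNat]
    rw [div_mul_div_comm]
    congr 1
    ring
  rw [h]
  exact Matrix.posSemidef_vecMulVec_self_star _

theorem p3_hess_one {N : ℕ} (z : Fin N → ℂ) :
    hessR (fun _ : Fin N → ℂ => (1 : ℝ)) z = 0 := by
  ext a b
  unfold hessR hess wd wdb
  simp

theorem p3_mixD_zero {ι : Type} [Fintype ι] [DecidableEq ι] {p m : ℕ}
    (S : (Fin p → ι) → (Fin p → ι) → ℂ) (H : Fin m → Matrix ι ι ℂ) (j : Fin m)
    (hj : H j = 0) : mixD S H = 0 := by
  unfold mixD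
  refine Finset.sum_eq_zero fun e _ => Finset.sum_eq_zero fun e' _ => ?_
  rw [Finset.prod_eq_zero (Finset.mem_univ j) (by rw [hj]; rfl), mul_zero]

theorem p3_ne {N p q : ℕ} (h : p + q + 1 = N) (s : Set (Fin N → ℂ)) :
    ∀ᵐ z ∂((volume : Measure (Fin N → ℂ)).restrict s), z ≠ 0 := by
  have : Nonempty (Fin N) := ⟨⟨0, by omega⟩⟩
  have : Nontrivial (Fin N → ℂ) := inferInstance
  have h0 : (volume : Measure (Fin N → ℂ)) {0} = 0 := measure_singleton _
  refine ae_restrict_of_ae ?_
  rw [ae_iff]
  simpa using h0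

/-- Row P3. -/
theorem pf_P3 (hS6 : T_S6) (hA4 : T_A4) (hP1 : T_P1) (hP2 : T_P2) (hL1 : T_L1) (hL3 : T_L3) :
    T_P3 := by
  intro N p q S u hN hS hu
  have hQ : ∀ U : Fin q → (Fin N → ℂ) → ℝ, (∀ j, Pot (U j)) → ∀ z, z ≠ 0 → 0 ≤ Q S U z := by
    intro U hU z hz
    have h1 := hA4 (Fin N) p (q + 1) (S z)
      (Fin.snoc (α := fun _ => Matrix (Fin N) (Fin N) ℂ) (fun j => hessR (U j) z) (Rad z))
      (hS.cp.psd z hz) (by
        intro j
        refine Fin.lastCases ?_ (fun i => ?_) j
        · rw [Fin.snoc_last]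
          exact p3_rad z
        · rw [Fin.snoc_castSucc]
          exact (hU i).psh z hz)
    exact (Complex.le_def.mp h1).1
  have hLH : ∀ v : (Fin N → ℂ) → ℝ, Pot v → LH 1 v := fun v hv =>
    (hL1 N 0 0 0 0 v v).2.2.1 hv
  have hell : Pot (ell : (Fin N → ℂ) → ℝ) := (hL3 N).1
  have hI : ∀ (U : Fin q → (Fin N → ℂ) → ℝ), (∀ j, Pot (U j)) → ∀ c : ℝ,
      IntegrableOn (fun z => c * Q S U z) {z : Fin N → ℂ | 0 ≤ ell z ∧ ell z < 1} := by
    intro U hU c
    exact (hP1 N p q S U (fun _ => 1) hN hS (fun j => hLH _ (hU j))).1 (fun _ => c) |c|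
      measurable_const (fun z _ => le_rfl)
  have hupd : ∀ (U : Fin q → (Fin N → ℂ) → ℝ) (j : Fin q) (v : (Fin N → ℂ) → ℝ),
      (∀ j, Pot (U j)) → Pot v → ∀ i, Pot (Function.update U j v i) := by
    intro U j v hU hv i
    by_cases h : i = j
    · subst h
      rw [Function.update_self]
      exact hv
    · rw [Function.update_of_ne h]
      exact hU i
  have hone : Hom0 (fun _ : Fin N → ℂ => (1 : ℝ)) :=
    ⟨contDiffOn_const, fun _ _ _ _ => rfl⟩
  -- one step
  have step : ∀ (U : Fin q → (Fin N → ℂ) → ℝ) (j : Fin q) (v w : (Fin N → ℂ) → ℝ),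
      (∀ j, Pot (U j)) → Pot v → Pot w →
      pair (fun _ => 1) S (Function.update U j v) =
        pair (fun _ => 1) S (Function.update U j w) := by
    intro U j v w hU hv hw
    have e1 := (hP2 N p q S U (fun _ => 1) j v w 1 1 1 (-1) (fun _ => 1) hN hS
      (fun j => hLH _ (hU j)) (hLH v hv) (hLH w hw)
      (hI _ (hupd U j v hU hv) 1) (hI _ (hupd U j w hU hw) 1)).1
    have hg : Hom0 (fun z => 1 * v z + (-1) * w z) := by
      have h1 := (hL1 N 1 1 1 (-1) v w).1 (hLH v hv) (hLH w hw)
      have h2 : (1 * 1 + (-1) * 1 : ℝ) = 0 := by norm_num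
      rw [h2] at h1
      exact (hL1 N 0 0 0 0 (fun z => 1 * v z + (-1) * w z) v).2.1.mpr h1
    have e2 := hS6 N p q S U (fun _ => 1) j (fun _ => 1) (fun z => 1 * v z + (-1) * w z) hN hS
      (fun j => hLH _ (hU j)) hone hg
    have e3 : pair (fun z => 1 * v z + (-1) * w z) S (Function.update U j (fun _ => 1)) = 0 := by
      have q0 : ∀ z, Q S (Function.update U j (fun _ => (1 : ℝ))) z = 0 := by
        intro z
        unfold Q
        rw [p3_mixD_zero _ _ (Fin.castSucc j) (by
          rw [Fin.snoc_castSucc, Function.update_self]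
          exact p3_hess_one z)]
        rfl
      unfold pair Iint
      simp [q0]
    rw [e2, e3] at e1
    linarith
  have hmass : pair (fun _ => 1) S u = mass q S := by
    have key : ∀ s : Finset (Fin q),
        pair (fun _ => 1) S (fun i => if i ∈ s then ell else u i) = pair (fun _ => 1) S u := by
      intro s
      induction s using Finset.induction_on with
      | empty => simp
      | insert a s ha ih =>
        rw [← ih]
        have hU : ∀ i, Pot ((fun i => if i ∈ s then (ell : (Fin N → ℂ) → ℝ) else u i) i) := by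
          intro i
          by_cases h : i ∈ s
          · simp only [h, if_true]
            exact hell
          · simp only [h, if_false]
            exact hu i
        have s1 : (fun i => if i ∈ insert a s then (ell : (Fin N → ℂ) → ℝ) else u i) =
            Function.update (fun i => if i ∈ s then (ell : (Fin N → ℂ) → ℝ) else u i) a ell := by
          funext i
          by_cases h : i = a
          · subst h
            rw [Function.update_self]
            simp
          · rw [Function.update_of_ne h]
            simp [Finset.mem_insert, h]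
        have s2 : (fun i => if i ∈ s then (ell : (Fin N → ℂ) → ℝ) else u i) =
            Function.update (fun i => if i ∈ s then (ell : (Fin N → ℂ) → ℝ) else u i) a
              (u a) := by
          funext i
          by_cases h : i = a
          · subst h
            rw [Function.update_self]
            simp [ha]
          · rw [Function.update_of_ne h]
        rw [s1]
        conv_rhs => rw [s2]
        exact step _ a ell (u a) hU hell (hu a)
    have k := key Finset.univ
    simp only [Finset.mem_univ, if_true] at k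
    unfold mass
    exact k.symm
  refine ⟨hQ u hu, ?_, hmass, ?_⟩
  · intro φ hφ
    unfold pair Iint
    refine integral_nonneg_of_ae ?_
    filter_upwards [p3_ne hN {z : Fin N → ℂ | 0 ≤ ell z ∧ ell z < 1}] with z hz
    exact mul_nonneg (hφ z hz) (hQ u hu z hz)
  · intro φ B hφ
    have h1 : ‖∫ z in {z : Fin N → ℂ | 0 ≤ ell z ∧ ell z < 1}, φ z * Q S u z‖ ≤
        ∫ z in {z : Fin N → ℂ | 0 ≤ ell z ∧ ell z < 1}, B * Q S u z := by
      refine norm_integral_le_of_norm_le (hI u hu B) ?_
      filter_upwards [p3_ne hN {z : Fin N → ℂ | 0 ≤ ell z ∧ ell z < 1}] with z hz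
      rw [norm_mul, Real.norm_eq_abs, Real.norm_eq_abs, abs_of_nonneg (hQ u hu z hz)]
      exact mul_le_mul_of_nonneg_right (hφ z hz) (hQ u hu z hz)
    rw [integral_const_mul] at h1
    have h2 : mass q S = ∫ z in {z : Fin N → ℂ | 0 ≤ ell z ∧ ell z < 1}, Q S u z := by
      rw [← hmass]
      unfold pair Iint
      simp
    rw [h2]
    exact h1

end Pool.Agent.H80.EQ
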