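import Pool.Agent.H92.EQ.TP
import Pool.Agent.H80.EQ.KI
import Pool.Agent.H52.EQ.KB

/-!
Board eqd_modules, row PRC, part a: measurability, ratios of polynomials, products.
-/

namespace Pool.Agent.H80.EQ

open scoped BigOperators ComplexConjugate ContDiff ComplexOrder
open MeasureTheory
open Pool.Agent.H92.EQ

/-- The image of a superlevel set is measurable. -/
theorem prc_meas {N : ℕ} (Φ : Fin N → MvPolynomial (Fin N) ℂ) (g : (Fin N → ℂ) → ℝ)
    (hg : ContinuousOn g {0}ᶜ) : MeasurableSet {z | ∃ x, ev Φ x = z ∧ 1 ≤ g x} := by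
  have hc : Continuous (ev Φ) := by
    unfold ev
    exact continuous_pi fun i => MvPolynomial.continuous_eval _
  have hK : ∀ n : ℕ, MeasurableSet (ev Φ '' ({x : Fin N → ℂ | 1 / ((n : ℝ) + 1) ≤ ‖x‖ ∧
      ‖x‖ ≤ n + 1} ∩ g ⁻¹' Set.Ici 1)) := by
    intro n
    have h1 : IsClosed {x : Fin N → ℂ | 1 / ((n : ℝ) + 1) ≤ ‖x‖ ∧ ‖x‖ ≤ n + 1} :=
      (isClosed_le continuous_const continuous_norm).inter
        (isClosed_le continuous_norm continuous_const)
    have h2 : IsCompact {x : Fin N → ℂ | 1 / ((n : ℝ) + 1) ≤ ‖x‖ ∧ ‖x‖ ≤ n + 1} := by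
      refine (isCompact_closedBall (0 : Fin N → ℂ) (n + 1)).of_isClosed_subset h1 ?_
      intro x hx
      rw [mem_closedBall_zero_iff]
      exact hx.2
    have h3 : ContinuousOn g {x : Fin N → ℂ | 1 / ((n : ℝ) + 1) ≤ ‖x‖ ∧ ‖x‖ ≤ n + 1} := by
      refine hg.mono ?_
      intro x hx h0
      have hx0 : x = 0 := h0
      have : (0 : ℝ) < 1 / ((n : ℝ) + 1) := by positivity
      have h4 := hx.1
      rw [hx0, norm_zero] at h4
      linarith
    have h4 := h3.preimage_isClosed_of_isClosed h1 (isClosed_Ici (a := (1 : ℝ)))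
    have h5 := h2.of_isClosed_subset h4 Set.inter_subset_left
    exact (h5.image hc).isClosed.measurableSet
  have hU : {z | ∃ x, ev Φ x = z ∧ 1 ≤ g x} =
      (⋃ n : ℕ, ev Φ '' ({x : Fin N → ℂ | 1 / ((n : ℝ) + 1) ≤ ‖x‖ ∧
        ‖x‖ ≤ n + 1} ∩ g ⁻¹' Set.Ici 1)) ∪ {z | 1 ≤ g 0 ∧ z = ev Φ 0} := by
    ext z
    constructor
    · rintro ⟨x, hx, h1⟩
      by_cases h0 : x = 0
      · right
        rw [h0] at h1 hx
        exact ⟨h1, hx.symm⟩
      · left
        have hp : 0 < ‖x‖ := norm_pos_iff.mpr h0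
        obtain ⟨n1, hn1⟩ := exists_nat_ge ‖x‖
        obtain ⟨n2, hn2⟩ := exists_nat_ge (1 / ‖x‖)
        refine Set.mem_iUnion.mpr ⟨max n1 n2, x, ⟨⟨?_, ?_⟩, h1⟩, hx⟩
        · rw [div_le_iff₀ (by positivity)]
          have h2 : (n2 : ℝ) ≤ ((max n1 n2 : ℕ) : ℝ) := by exact_mod_cast le_max_right _ _
          rw [div_le_iff₀ hp] at hn2
          nlinarith
        · have h2 : (n1 : ℝ) ≤ ((max n1 n2 : ℕ) : ℝ) := by exact_mod_cast le_max_left _ _
          linarith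
    · rintro (h | ⟨h1, h2⟩)
      · obtain ⟨n, x, hx, hz⟩ := Set.mem_iUnion.mp h
        exact ⟨x, hz, hx.2⟩
      · exact ⟨0, h2.symm, h1⟩
  rw [hU]
  refine (MeasurableSet.iUnion hK).union ?_
  by_cases h : 1 ≤ g 0
  · have : {z | 1 ≤ g 0 ∧ z = ev Φ 0} = {ev Φ 0} := by
      ext z
      simp [h]
    rw [this]
    exact measurableSet_singleton _
  · have : {z | 1 ≤ g 0 ∧ z = ev Φ 0} = ∅ := by
      ext z
      simp [h]
    rw [this]
    exact MeasurableSet.empty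

theorem prc_nrm_smul {N : ℕ} (c : ℂ) (z : Fin N → ℂ) : nrm (c • z) = ‖c‖ * nrm z := by
  unfold nrm nsq
  have : ∑ i, ‖(c • z) i‖ ^ 2 = ‖c‖ ^ 2 * ∑ i, ‖z i‖ ^ 2 := by
    rw [Finset.mul_sum]
    refine Finset.sum_congr rfl fun i _ => ?_
    rw [Pi.smul_apply, smul_eq_mul, norm_mul, mul_pow]
  rw [this, Real.sqrt_mul (by positivity), Real.sqrt_sq (norm_nonneg _)]

theorem prc_ev_smul {N D : ℕ} {G : Fin N → MvPolynomial (Fin N) ℂ}
    (hG : ∀ i, (G i).IsHomogeneous D) (l : ℂ) (z : Fin N → ℂ) :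
    ev G (l • z) = l ^ D • ev G z := by
  funext i
  simp only [ev, Pi.smul_apply, smul_eq_mul]
  exact Pool.Agent.H52.EQ.eval_smul' (hG i) l z

theorem prc_nv_smul {N m : ℕ} {h : MvPolynomial (Fin N) ℂ} (hh : h.IsHomogeneous m) {c : ℂ}
    (hc : c ≠ 0) (z : Fin N → ℂ) : nv h m (c • z) = nv h m z := by
  unfold nv
  rw [Pool.Agent.H52.EQ.eval_smul' hh, prc_nrm_smul, norm_mul, norm_pow, mul_pow]
  exact mul_div_mul_left _ _ (pow_ne_zero _ (norm_ne_zero_iff.mpr hc))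

/-- Comparison of the norms of `G ∘ Φ` and of a divisor. -/
theorem prc_ratio (hL6 : T_L6) {N D m M : ℕ} {Φ : Fin N → MvPolynomial (Fin N) ℂ}
    {G P : MvPolynomial (Fin N) ℂ} (hΦ : IsH D Φ) (hG : G.IsHomogeneous m)
    (hP : P.IsHomogeneous M) (hdvd : P ∣ MvPolynomial.bind₁ Φ G) :
    ∃ C1 : ℝ, 0 < C1 ∧ ∀ x : Fin N → ℂ, x ≠ 0 → nv G m (ev Φ x) ≤ C1 * nv P M x := by
  obtain ⟨R, hR⟩ := hdvd
  have hev : ∀ x, MvPolynomial.eval (ev Φ x) G =
      MvPolynomial.eval x P * MvPolynomial.eval x R := by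
    intro x
    rw [← map_mul, ← hR]
    have := MvPolynomial.eval₂Hom_bind₁ (RingHom.id ℂ) x Φ G
    simp only [MvPolynomial.eval]
    rw [this]
    rfl
  have hcont : ContinuousOn (fun x : Fin N → ℂ => (((nrm x)⁻¹ : ℝ) : ℂ) • x) {0}ᶜ := by
    have h1 : ContinuousOn (fun x : Fin N → ℂ => (nrm x)⁻¹) {0}ᶜ :=
      Pool.Agent.H52.EQ.continuous_nrm'.continuousOn.inv₀
        (fun x hx => (Pool.Agent.H52.EQ.nrm_pos' hx).ne')
    exact (Complex.continuous_ofReal.comp_continuousOn h1).smul continuousOn_id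
  have hne : ∀ x : Fin N → ℂ, x ≠ 0 → (((nrm x)⁻¹ : ℝ) : ℂ) • x ≠ 0 := by
    intro x hx
    refine smul_ne_zero ?_ hx
    exact_mod_cast (inv_pos.mpr (Pool.Agent.H52.EQ.nrm_pos' hx)).ne'
  have hevc : Continuous (ev Φ) := by
    unfold ev
    exact continuous_pi fun i => MvPolynomial.continuous_eval _
  obtain ⟨B, hB0, hB⟩ := (hL6 N).1
    (fun x => ‖MvPolynomial.eval ((((nrm x)⁻¹ : ℝ) : ℂ) • x) R‖ /
      nrm (ev Φ ((((nrm x)⁻¹ : ℝ) : ℂ) • x)) ^ m) (by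
      refine ContinuousOn.div ?_ ?_ ?_
      · exact ((MvPolynomial.continuous_eval R).comp_continuousOn hcont).norm
      · exact ((Pool.Agent.H52.EQ.continuous_nrm'.comp hevc).comp_continuousOn hcont).pow _
      · intro x hx
        refine pow_ne_zero _ (Pool.Agent.H52.EQ.nrm_pos' ?_).ne'
        exact fun h => hne x hx (hΦ.nd _ h)) (by
      intro t z ht hz
      have e : (((nrm ((t : ℂ) • z))⁻¹ : ℝ) : ℂ) • ((t : ℂ) • z) =
          (((nrm z)⁻¹ : ℝ) : ℂ) • z := by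
        rw [Pool.Agent.H52.EQ.nrm_smul' ht, smul_smul]
        congr 1
        have h1 : (t : ℂ) ≠ 0 := by exact_mod_cast ht.ne'
        push_cast
        field_simp
      rw [e])
  refine ⟨B, hB0, fun x hx => ?_⟩
  have hx0 := Pool.Agent.H52.EQ.nrm_pos' hx
  set c : ℂ := (((nrm x)⁻¹ : ℝ) : ℂ) with hc
  have hc0 : c ≠ 0 := by
    rw [hc]
    exact_mod_cast (inv_pos.mpr hx0).ne'
  have hn1 : nrm (c • x) = 1 := by
    rw [prc_nrm_smul, hc, Complex.norm_real, Real.norm_eq_abs, abs_of_pos (inv_pos.mpr hx0)]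
    exact inv_mul_cancel₀ hx0.ne'
  have h1 : nv G m (ev Φ x) = nv G m (ev Φ (c • x)) := by
    rw [prc_ev_smul hΦ.hom, prc_nv_smul hG (pow_ne_zero _ hc0)]
  have h2 : nv P M x = ‖MvPolynomial.eval (c • x) P‖ := by
    rw [← prc_nv_smul hP hc0 x]
    unfold nv
    rw [hn1, one_pow, div_one]
  have h3 := (le_abs_self _).trans (hB x hx)
  rw [h1, h2]
  unfold nv
  rw [hev, norm_mul, mul_div_assoc, mul_comm]
  exact mul_le_mul_of_nonneg_right h3 (norm_nonneg _)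

/-! ### Functions of degree zero -/

theorem prc_hom_const {N : ℕ} (b : ℝ) : Hom0 (fun _ : Fin N → ℂ => b) :=
  ⟨contDiffOn_const, fun _ _ _ _ => rfl⟩

theorem prc_hom_mul {N : ℕ} {f g : (Fin N → ℂ) → ℝ} (hf : Hom0 f) (hg : Hom0 g) :
    Hom0 (fun z => f z * g z) :=
  ⟨hf.smooth.mul hg.smooth, fun l z hl hz => by rw [hf.hom l z hl hz, hg.hom l z hl hz]⟩

theorem prc_hom_one_sub {N : ℕ} {f : (Fin N → ℂ) → ℝ} (hf : Hom0 f) :
    Hom0 (fun z => 1 - f z) :=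
  ⟨contDiffOn_const.sub hf.smooth, fun l z hl hz => by rw [hf.hom l z hl hz]⟩

theorem prc_hom_prod {N : ℕ} {I : Type} (s : Finset I) (f : I → (Fin N → ℂ) → ℝ)
    (hf : ∀ i ∈ s, Hom0 (f i)) : Hom0 (fun z => ∏ i ∈ s, f i z) := by
  classical
  induction s using Finset.induction_on with
  | empty => simpa using prc_hom_const 1
  | insert a s ha ih =>
    have h1 := prc_hom_mul (hf a (Finset.mem_insert_self a s))
      (ih fun i hi => hf i (Finset.mem_insert_of_mem hi))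
    have e : (fun z => ∏ i ∈ insert a s, f i z) = fun z => f a z * ∏ i ∈ s, f i z := by
      funext z
      rw [Finset.prod_insert ha]
    rw [e]
    exact h1

theorem prc_hom_comp (hL1 : T_L1) {N D : ℕ} {G : Fin N → MvPolynomial (Fin N) ℂ}
    (hG : IsH D G) {f : (Fin N → ℂ) → ℝ} (hf : Hom0 f) : Hom0 (fun z => f (ev G z)) := by
  have h1 := ((hL1 N 0 0 0 0 f f).2.1).mp hf
  have h2 := (hL1 N 0 0 0 0 f f).2.2.2 D G hG h1
  rw [mul_zero] at h2
  exact ((hL1 N 0 0 0 0 (fun z => f (ev G z)) f).2.1).mpr h2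

theorem prc_hom_noV (hL1 : T_L1) (hD12 : T_D12) {N d : ℕ}
    {F : Fin N → MvPolynomial (Fin N) ℂ} (hd : 1 ≤ d) (hF : IsH d F) {v : (Fin N → ℂ) → ℝ}
    (hv : Hom0 v) (L a b : ℕ) : Hom0 (noV F v L a b) := by
  unfold noV
  refine prc_hom_prod _ _ fun i _ => ?_
  exact prc_hom_one_sub (prc_hom_comp hL1 (hD12 N d F hd hF 0 (L - i)).1 hv)

/-- The product starts again at time `l`. -/
theorem prc_noV_shift {N : ℕ} (F : Fin N → MvPolynomial (Fin N) ℂ) (v : (Fin N → ℂ) → ℝ)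
    {l L : ℕ} (hl : l ≤ L) (x : Fin N → ℂ) :
    noV F v L l (L + 1) x = noV F v (L - l) 0 (L - l + 1) x := by
  unfold noV
  have h : Finset.Ico l (L + 1) = Finset.Ico (0 + l) (L - l + 1 + l) := by
    congr 1 <;> omega
  rw [h, ← Finset.prod_Ico_add' (fun i => 1 - v (ev (iter F (L - i)) x)) 0 (L - l + 1) l]
  refine Finset.prod_congr rfl fun i _ => ?_
  have e : L - (i + l) = L - l - i := by omega
  rw [e]

/-- The product up to time `j` is a function of the position at time `j`. -/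
theorem prc_noV_comp (hD12 : T_D12) {N d : ℕ} {F : Fin N → MvPolynomial (Fin N) ℂ}
    (hd : 1 ≤ d) (hF : IsH d F) (v : (Fin N → ℂ) → ℝ) {j L : ℕ} (hj : j ≤ L)
    (x : Fin N → ℂ) : noV F v L 0 j x = noV F v j 0 j (ev (iter F (L - j)) x) := by
  unfold noV
  refine Finset.prod_congr rfl fun i hi => ?_
  have hi' := (Finset.mem_Ico.mp hi).2
  rw [← (hD12 N d F hd hF (j - i) (L - j)).2.1 x]
  have e : j - i + (L - j) = L - i := by omega
  rw [e]

theorem prc_noV_mem {N : ℕ} (F : Fin N → MvPolynomial (Fin N) ℂ) {v : (Fin N → ℂ) → ℝ}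
    (hv : ∀ z, 0 ≤ v z ∧ v z ≤ 1) (L a b : ℕ) (x : Fin N → ℂ) :
    0 ≤ noV F v L a b x ∧ noV F v L a b x ≤ 1 := by
  unfold noV
  constructor
  · exact Finset.prod_nonneg fun i _ => by linarith [(hv (ev (iter F (L - i)) x)).2]
  · refine Finset.prod_le_one (fun i _ => ?_) (fun i _ => ?_)
    · linarith [(hv (ev (iter F (L - i)) x)).2]
    · linarith [(hv (ev (iter F (L - i)) x)).1]

theorem prc_noV_mono {N : ℕ} (F : Fin N → MvPolynomial (Fin N) ℂ) {v : (Fin N → ℂ) → ℝ}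
    (hv : ∀ z, 0 ≤ v z ∧ v z ≤ 1) {L l t b : ℕ} (h1 : l ≤ t) (h2 : t ≤ b) (x : Fin N → ℂ) :
    noV F v L l b x ≤ noV F v L t b x := by
  have h : noV F v L l b x = noV F v L l t x * noV F v L t b x := by
    unfold noV
    exact (Finset.prod_Ico_consecutive _ h1 h2).symm
  rw [h]
  have a1 := (prc_noV_mem F hv L l t x).2
  have a2 := (prc_noV_mem F hv L t b x).1
  nlinarith

end Pool.Agent.H80.EQ
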